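import Pool.Agent.Lib.PosetForcing.ZFC

set_option autoImplicit false

/-! The multiboard game written inside a structure `(M, mem)`; all quantifiers range over `M`. -/

open Pool.Agent.Lib.PosetForcing

namespace Pool.Agent.P.MP_0c777d_lc

universe v

variable {M : Type v} (mem : M → M → Prop)

/-- `E` is the set of even elements of `w = ω` -/
def IsEvens (E w : M) : Prop :=
  (∀ x, mem x E → mem x w) ∧ (∀ e, (∀ x, ¬ mem x e) → mem e E) ∧
    ∀ x y, mem x w → IsSucc mem y x → (mem y E ↔ ¬ mem x E)

/-- `h` is a sequence of length `n` of moves, a move being a function `K → L` -/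
def IsPos (h n K L : M) : Prop := IsFunOn mem h n (fun g => IsFun mem g K L)

/-- `s` is a strategy for the player who moves at the stages `n ∈ w` with `T n` -/
def IsStrat (s w K L : M) (T : M → Prop) : Prop :=
  (∀ h g g', App mem s h g → App mem s h g' → g = g') ∧
    ∀ n h, mem n w → T n → IsPos mem h n K L → ∃ g, App mem s h g ∧ IsFun mem g K L

/-- the play `f` follows `s` at the stages `n ∈ w` with `T n`: `f n = s (f ↾ n)` -/
def Follows (f s w : M) (T : M → Prop) : Prop :=
  ∀ n h g, mem n w → T n → IsRestr mem h f n → App mem f n g → App mem s h g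

/-- on some board `α ∈ K` the sequence `n ↦ f n α` is an element of `A` -/
def OneWins (f A w K : M) : Prop :=
  ∃ α, mem α K ∧ ∃ a, mem a A ∧
    ∀ n g, mem n w → App mem f n g → ∃ y, App mem g α y ∧ App mem a n y

/-- `D(L, K)`: for every set `A` of functions `w → L` the `K`-board game on `A` is determined -/
def Det (w E L K : M) : Prop :=
  ∀ A, (∀ a, mem a A → IsFun mem a w L) →
    (∃ s, IsStrat mem s w K L (fun n => mem n E) ∧
      ∀ f, IsPos mem f w K L → Follows mem f s w (fun n => mem n E) → OneWins mem f A w K) ∨
    (∃ t, IsStrat mem t w K L (fun n => ¬ mem n E) ∧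
      ∀ f, IsPos mem f w K L → Follows mem f t w (fun n => ¬ mem n E) → ¬ OneWins mem f A w K)

end Pool.Agent.P.MP_0c777d_lc
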