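import Pool.Agent.P.MP_0c777d_lc.Club

set_option autoImplicit false

open Cardinal

namespace Pool.Agent.P.MP_0c777d_lc

theorem lower_bounds (L K : Type) (hL : (2 : Cardinal) ≤ Cardinal.mk L)
    (hK : (1 : Cardinal) ≤ Cardinal.mk K)
    (hD : ∀ A : Set (ℕ → L),
        (∃ σ : List (K → L) → (K → L), ∀ f : ℕ → K → L,
            (∀ n : ℕ, f (2 * n) = σ (List.ofFn (fun i : Fin (2 * n) => f i.val))) →
            ∃ α : K, (fun n => f n α) ∈ A) ∨
        (∃ τ : List (K → L) → (K → L), ∀ f : ℕ → K → L,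
            (∀ n : ℕ, f (2 * n + 1) = τ (List.ofFn (fun i : Fin (2 * n + 1) => f i.val))) →
            ∀ α : K, (fun n => f n α) ∉ A)) :
    Cardinal.mk L ≤ Cardinal.mk K ∧
    Cardinal.aleph0 < Cardinal.mk K ∧
    (Cardinal.continuum.ord.cof ≤ Cardinal.mk K) ∧
    (∀ μ : Cardinal, Cardinal.aleph0 ≤ μ → μ ≤ Cardinal.mk L →
      μ ^ Cardinal.aleph0.{0} = 2 ^ μ → ((2 : Cardinal) ^ μ).ord.cof ≤ Cardinal.mk K) := by
  have : Nonempty K := mk_ne_zero_iff.1 (by intro h; rw [h] at hK; simp at hK)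
  have key : ∀ (X : Type) [Nontrivial X], #X ≤ #L → #(List X → X) ≤ #(ℕ → X) →
      (#(ℕ → X)).ord.cof ≤ #K := by
    intro X _ hXL hX
    by_contra hcon
    obtain ⟨A0, h1, h2⟩ := exists_A0 X hX
    obtain ⟨p, j, hpj⟩ := exists_retr hXL
    obtain ⟨A, hA⟩ := not_det p j hpj A0 h1 fun s => h2 K s (not_le.1 hcon)
    exact hA (hD A)
  have h3 : Cardinal.continuum.ord.cof ≤ #K := by
    have := key Bool (by simpa using hL) (by simp)
    simpa using this
  have h2 : ℵ₀ < #K := by
    refine lt_of_lt_of_le ?_ h3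
    rw [← two_power_aleph0]
    exact lt_cof_ord_power le_rfl one_lt_two
  refine ⟨?_, h2, h3, fun μ hμ hμL hμ' => ?_⟩
  · by_contra hcon
    have hs : Order.succ #K ≤ #L := Order.succ_le_of_lt (not_le.1 hcon)
    have hreg := isRegular_succ h2.le
    have hW : #(Order.succ #K).ord.ToType = Order.succ #K := by simp
    have hseg : ∀ a : (Order.succ #K).ord.ToType, #(Set.Iic a) ≤ #K := by
      intro a
      rw [← Set.Iio_insert]
      exact mk_insert_le.trans (add_le_of_le h2.le
        (Order.lt_succ_iff.1 (mk_Iio_toType_ord_lt a)) hK)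
    have hb : ∀ S : Set (Order.succ #K).ord.ToType, #S ≤ #K → ∃ b, ∀ a ∈ S, a < b := by
      intro S hS
      by_contra hc
      push Not at hc
      have hcof : IsCofinal S := fun b => hc b
      have h1 := Order.cof_le hcof
      rw [Ordinal.cof_toType, hreg.cof_ord] at h1
      exact absurd (h1.trans hS) (not_le.2 (Order.lt_succ _))
    obtain ⟨A0, h1, h4⟩ := exists_A1 h2.le ((Order.lt_succ _).trans_eq hW.symm) hb hseg
    have : Nonempty (Order.succ #K).ord.ToType :=
      mk_ne_zero_iff.1 ((zero_le.trans_lt (Order.lt_succ #K)).trans_eq hW.symm).ne'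
    obtain ⟨p, j, hpj⟩ := exists_retr (hW.trans_le hs)
    obtain ⟨A, hA⟩ := not_det p j hpj A0 h1 fun s => h4 K s le_rfl
    exact hA (hD A)
  · have hX : #μ.out = μ := mk_out μ
    have : Infinite μ.out := infinite_iff.2 (hμ.trans_eq hX.symm)
    have e : #(ℕ → μ.out) = 2 ^ μ := by
      rw [← hμ', ← power_def, hX, mk_nat]
    have := key μ.out (hX.trans_le hμL) (by
      rw [e, ← power_def, mk_list_eq_mk, hX, power_self_eq hμ])
    rwa [e] at this

end Pool.Agent.P.MP_0c777d_lc

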