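import Pool.Agent.P.MP_0c777d_lc.Cof

set_option autoImplicit false

open Cardinal

namespace Pool.Agent.P.MP_0c777d_lc

/-- points of countable cofinality closed under `g` -/
def Cl {W : Type} [LinearOrder W] (g : W → W) : Set W :=
  {d | (∃ z : ℕ → W, (∀ n, z n < d) ∧ IsLUB (Set.range z) d) ∧ ∀ a < d, g a < d}

section
variable {W : Type} [LinearOrder W] [WellFoundedLT W] {k : Cardinal.{0}}

theorem cl_nonempty (hk : ℵ₀ ≤ k) [Nonempty W]
    (hb : ∀ S : Set W, #S ≤ k → ∃ b, ∀ a ∈ S, a < b) (hs : ∀ a : W, #(Set.Iic a) ≤ k)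
    (g : W → W) : (Cl g).Nonempty := by
  classical
  have h1 : ∀ a : W, ∃ b, a < b ∧ ∀ c ≤ a, g c < b := by
    intro a
    obtain ⟨b, hb'⟩ := hb (insert a (g '' Set.Iic a)) (mk_insert_le.trans
      (add_le_of_le hk (mk_image_le.trans (hs a)) (one_le_aleph0.trans hk)))
    exact ⟨b, hb' a (Set.mem_insert _ _), fun c hc => hb' _ (Set.mem_insert_of_mem _ ⟨c, hc, rfl⟩)⟩
  choose nx hnx hnx' using h1
  let z : ℕ → W := fun n => nx^[n] (Classical.arbitrary W)
  have hz : ∀ n, z (n + 1) = nx (z n) := fun n => Function.iterate_succ_apply' nx n _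
  obtain ⟨b, hb'⟩ := hb (Set.range z) (mk_range_le.trans (by simpa using hk))
  have hne : (upperBounds (Set.range z)).Nonempty := ⟨b, fun a ha => (hb' a ha).le⟩
  let d := wellFounded_lt.min _ hne
  have hd : IsLUB (Set.range z) d :=
    ⟨wellFounded_lt.min_mem _ hne, fun c hc => not_lt.1 (wellFounded_lt.not_lt_min _ hc)⟩
  have hzd : ∀ n, z n < d := fun n =>
    (hnx (z n)).trans_le (hz n ▸ hd.1 ⟨n + 1, rfl⟩)
  refine ⟨d, ⟨z, hzd, hd⟩, fun a ha => ?_⟩
  obtain ⟨c, ⟨n, rfl⟩, hc⟩ := (lt_isLUB_iff hd).1 ha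
  exact (hnx' (z n) a hc.le).trans (hz n ▸ hzd (n + 1))

/-- Ulam matrix argument: a set meeting every `Cl g` whose complement also does -/
theorem exists_bistat (hk : ℵ₀ ≤ k) (hW : k < #W)
    (hb : ∀ S : Set W, #S ≤ k → ∃ b, ∀ a ∈ S, a < b) (hs : ∀ a : W, #(Set.Iic a) ≤ k) :
    ∃ S : Set W, (∀ g, ∃ d ∈ Cl g, d ∈ S) ∧ (∀ g, ∃ d ∈ Cl g, d ∉ S) := by
  classical
  have : Nonempty W := mk_ne_zero_iff.1 (lt_of_le_of_lt zero_le hW).ne'
  have hh : ∀ d : W, Nonempty (Set.Iic d ↪ k.out) := fun d => by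
    rw [← Cardinal.le_def, mk_out]; exact hs d
  let h := fun d => (hh d).some
  have h1 : ∀ a : W, ∃ i : k.out, ∀ g, ∃ d ∈ Cl g, ∃ had : a ≤ d, h d ⟨a, had⟩ = i := by
    intro a
    by_contra hcon
    push Not at hcon
    choose G hG using hcon
    have h2 : ∀ c : W, ∃ b, a < b ∧ ∀ i, G i c < b := by
      intro c
      obtain ⟨b, hb'⟩ := hb (insert a (Set.range fun i => G i c)) (mk_insert_le.trans
        (add_le_of_le hk (mk_range_le.trans (mk_out k).le) (one_le_aleph0.trans hk)))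
      exact ⟨b, hb' a (Set.mem_insert _ _), fun i => hb' _ (Set.mem_insert_of_mem _ ⟨i, rfl⟩)⟩
    choose g hg hg' using h2
    obtain ⟨d, ⟨z, hz, hz'⟩, hd⟩ := cl_nonempty hk hb hs g
    have had : a ≤ d := ((hg (z 0)).trans (hd _ (hz 0))).le
    exact hG (h d ⟨a, had⟩) d ⟨⟨z, hz, hz'⟩, fun c hc => (hg' c _).trans (hd c hc)⟩ had rfl
  choose i hi using h1
  obtain ⟨a, a', haa, hne⟩ : ∃ a a', i a = i a' ∧ a ≠ a' := by
    by_contra hcon
    push Not at hcon
    have := mk_le_of_injective (f := i) (fun a a' h => hcon a a' h)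
    rw [mk_out] at this
    exact absurd this (not_le.2 hW)
  refine ⟨{d | ∃ had : a ≤ d, h d ⟨a, had⟩ = i a}, fun g => hi a g, fun g => ?_⟩
  obtain ⟨d, hd, had, hd'⟩ := hi a' g
  refine ⟨d, hd, ?_⟩
  rintro ⟨had', h3⟩
  have := (h d).injective (h3.trans (haa.trans hd'.symm))
  exact hne (congrArg Subtype.val this)

omit [WellFoundedLT W] in
theorem bound_strat (hk : ℵ₀ ≤ k)
    (hb : ∀ S : Set W, #S ≤ k → ∃ b, ∀ a ∈ S, a < b) (hs : ∀ a : W, #(Set.Iic a) ≤ k)
    (K : Type) (hK : #K ≤ k) (s : K → List W → W) :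
    ∃ g : W → W, ∀ d ∈ Cl g, ∀ z : ℕ → W, (∀ n, z n < d) → ∀ α n, s α (pre z n) < d := by
  classical
  have h1 : ∀ a : W, ∃ b, ∀ (α : K) (l : List (Set.Iic a)), s α (l.map Subtype.val) < b := by
    intro a
    obtain ⟨b, hb'⟩ := hb (Set.range fun p : K × List (Set.Iic a) => s p.1 (p.2.map Subtype.val))
      (mk_range_le.trans (by
        rw [mk_prod, lift_id, lift_id]
        exact mul_le_of_le hk hK ((mk_list_le_max _).trans (max_le hk (hs a)))))
    exact ⟨b, fun α l => hb' _ ⟨(α, l), rfl⟩⟩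
  choose g hg using h1
  refine ⟨g, fun d hd z hz α n => ?_⟩
  obtain ⟨m, hm⟩ : ∃ m, ∀ i ≤ n, z i ≤ z m := by
    obtain ⟨m, -, hm⟩ := Finset.exists_max_image (Finset.range (n + 1)) z ⟨0, by simp⟩
    exact ⟨m, fun i hi => hm i (by simp; omega)⟩
  have h2 : pre z n = (List.ofFn fun i : Fin n =>
      (⟨z i.val, hm i.val i.2.le⟩ : Set.Iic (z m))).map Subtype.val := by
    simp [pre, List.map_ofFn, Function.comp_def]
  rw [h2]
  exact (hg _ α _).trans (hd.2 _ (hz m))

theorem exists_A1 (hk : ℵ₀ ≤ k) (hW : k < #W)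
    (hb : ∀ S : Set W, #S ≤ k → ∃ b, ∀ a ∈ S, a < b) (hs : ∀ a : W, #(Set.Iic a) ≤ k) :
    ∃ A0 : Set ((ℕ → W) × (ℕ → W)),
      (∀ t : List W → W, ∃ y, (y, fun n => t (pre y (n + 1))) ∈ A0) ∧
      (∀ (K : Type) (s : K → List W → W), #K ≤ k →
        ∃ z : ℕ → W, ∀ α, ((fun n => s α (pre z n)), z) ∉ A0) := by
  obtain ⟨S, hS, hS'⟩ := exists_bistat hk hW hb hs
  refine ⟨{p | ∃ d ∈ S, IsLUB (Set.range p.1 ∪ Set.range p.2) d}, fun t => ?_, fun K s hK => ?_⟩
  · obtain ⟨g, hg⟩ := bound_strat hk hb hs Unit (by simpa using one_le_aleph0.trans hk)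
      (fun _ => t)
    obtain ⟨d, hd, hdS⟩ := hS g
    obtain ⟨z, hz, hz'⟩ := hd.1
    refine ⟨z, d, hdS, ?_, fun c hc => hz'.2 fun a ha => hc (Or.inl ha)⟩
    rintro a (ha | ⟨n, rfl⟩)
    · exact hz'.1 ha
    · exact (hg d hd z hz () (n + 1)).le
  · obtain ⟨g, hg⟩ := bound_strat hk hb hs K hK s
    obtain ⟨d, hd, hdS⟩ := hS' g
    obtain ⟨z, hz, hz'⟩ := hd.1
    refine ⟨z, fun α ⟨d', hd', h⟩ => hdS ?_⟩
    have : IsLUB (Set.range (fun n => s α (pre z n)) ∪ Set.range z) d := by
      refine ⟨?_, fun c hc => hz'.2 fun a ha => hc (Or.inr ha)⟩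
      rintro a (⟨n, rfl⟩ | ha)
      · exact (hg d hd z hz α n).le
      · exact hz'.1 ha
    exact this.unique h ▸ hd'

end

/-- the play in which every move is produced by `st` from the earlier moves -/
noncomputable def play {M : Type} (st : List M → M) (n : ℕ) : M :=
  st (List.ofFn fun i : Fin n => play st i.val)
termination_by n
decreasing_by exact i.2

theorem play_congr {M : Type} {st st' : List M → M} (n : ℕ)
    (h : ∀ l : List M, l.length ≤ n → st l = st' l) : play st n = play st' n := by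
  induction n using Nat.strong_induction_on with
  | _ n ih =>
    rw [play, play, h _ (by simp)]
    congr 2
    funext i
    exact ih i i.2 fun l hl => h l (by omega)

theorem pre_getD {X : Type} (z : ℕ → X) (x : X) {n i : ℕ} (h : i < n) :
    (pre z n).getD i x = z i := by
  simp [pre, List.getD_eq_getElem?_getD, h]

theorem not_det {L K X : Type} [Nonempty K] [Nonempty X] (p : L → X) (j : X → L)
    (hpj : ∀ x, p (j x) = x) (A0 : Set ((ℕ → X) × (ℕ → X)))
    (h1 : ∀ t : List X → X, ∃ y, (y, fun n => t (pre y (n + 1))) ∈ A0)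
    (h2 : ∀ s : K → List X → X, ∃ z : ℕ → X, ∀ α, ((fun n => s α (pre z n)), z) ∉ A0) :
    ∃ A : Set (ℕ → L),
      ¬ ((∃ σ : List (K → L) → (K → L), ∀ f : ℕ → K → L,
            (∀ n : ℕ, f (2 * n) = σ (List.ofFn (fun i : Fin (2 * n) => f i.val))) →
            ∃ α : K, (fun n => f n α) ∈ A) ∨
        (∃ τ : List (K → L) → (K → L), ∀ f : ℕ → K → L,
            (∀ n : ℕ, f (2 * n + 1) = τ (List.ofFn (fun i : Fin (2 * n + 1) => f i.val))) →
            ∀ α : K, (fun n => f n α) ∉ A)) := by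
  classical
  let x0 : X := Classical.arbitrary X
  refine ⟨{a | ((fun n => p (a (2 * n))), (fun n => p (a (2 * n + 1)))) ∈ A0}, ?_⟩
  rintro (⟨σ, hσ⟩ | ⟨τ, hτ⟩)
  · let st : (ℕ → X) → List (K → L) → (K → L) := fun z l =>
      if l.length % 2 = 0 then σ l else fun _ => j (z (l.length / 2))
    obtain ⟨z, hz⟩ := h2 fun α l => p (play (st fun i => l.getD i x0) (2 * l.length) α)
    obtain ⟨α, hα⟩ := hσ (play (st z)) (fun n => by rw [play]; simp [st])
    apply hz α
    have e1 : (fun n => p (play (st fun i => (pre z n).getD i x0) (2 * (pre z n).length) α)) =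
        fun n => p (play (st z) (2 * n) α) := by
      funext n
      have : (pre z n).length = n := by simp [pre]
      rw [this, play_congr (st' := st z)]
      intro l hl
      simp only [st]
      split_ifs with h
      · rfl
      · rw [pre_getD z x0 (by omega)]
    have e2 : z = fun n => p (play (st z) (2 * n + 1) α) := by
      funext n
      rw [play]
      have : (2 * n + 1) / 2 = n := by omega
      simp [st, this, hpj]
    rw [e1]
    have hα' : ((fun n => p (play (st z) (2 * n) α)),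
      (fun n => p (play (st z) (2 * n + 1) α))) ∈ A0 := hα
    rwa [← e2] at hα'
  · let α : K := Classical.arbitrary K
    let st : (ℕ → X) → List (K → L) → (K → L) := fun y l =>
      if l.length % 2 = 1 then τ l else fun _ => j (y (l.length / 2))
    obtain ⟨y, hy⟩ := h1 fun l => p (play (st fun i => l.getD i x0) (2 * (l.length - 1) + 1) α)
    apply hτ (play (st y)) (fun n => by rw [play]; simp [st]) α
    have e1 : (fun n => p (play (st fun i => (pre y (n + 1)).getD i x0)
        (2 * ((pre y (n + 1)).length - 1) + 1) α)) =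
        fun n => p (play (st y) (2 * n + 1) α) := by
      funext n
      have : (pre y (n + 1)).length - 1 = n := by simp [pre]
      rw [this, play_congr (st' := st y)]
      intro l hl
      simp only [st]
      split_ifs with h
      · rfl
      · rw [pre_getD y x0 (by omega)]
    have e2 : (fun n => p (play (st y) (2 * n) α)) = y := by
      funext n
      rw [play]
      simp [st, hpj]
    rw [e1] at hy
    show ((fun n => p (play (st y) (2 * n) α)), (fun n => p (play (st y) (2 * n + 1) α))) ∈ A0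
    rwa [e2]

theorem exists_retr {L X : Type} [Nonempty X] (h : #X ≤ #L) :
    ∃ (p : L → X) (j : X → L), ∀ x, p (j x) = x := by
  obtain ⟨j⟩ := (Cardinal.le_def _ _).1 h
  exact ⟨Function.invFun j, j, Function.leftInverse_invFun j.injective⟩

end Pool.Agent.P.MP_0c777d_lc
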