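import Mathlib

set_option autoImplicit false

open Cardinal

namespace Pool.Agent.P.MP_0c777d_lc

/-- the first `n` values of a sequence -/
def pre {X : Type} (z : ℕ → X) (n : ℕ) : List X := List.ofFn (fun i : Fin n => z i.val)

theorem pre_congr {X : Type} {z z' : ℕ → X} {n : ℕ} (h : ∀ i < n, z i = z' i) :
    pre z n = pre z' n := by
  unfold pre
  congr 1
  ext i
  exact h i i.2

/-- a set that no single-board strategy of TWO avoids, but such that any small family of
single-board strategies of ONE is beaten by one sequence of moves of TWO -/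
theorem exists_A0 (X : Type) [Nontrivial X] (hX : #(List X → X) ≤ #(ℕ → X)) :
    ∃ A0 : Set ((ℕ → X) × (ℕ → X)),
      (∀ t : List X → X, ∃ y, (y, fun n => t (pre y (n + 1))) ∈ A0) ∧
      (∀ (K : Type) (s : K → List X → X), #K < (#(ℕ → X)).ord.cof →
        ∃ z : ℕ → X, ∀ α, ((fun n => s α (pre z n)), z) ∉ A0) := by
  classical
  have hinf : ℵ₀ ≤ #(ℕ → X) := by
    have : Infinite (ℕ → X) := Pi.infinite_of_left
    exact aleph0_le_mk _
  obtain ⟨e⟩ : Nonempty ((List X → X) ↪ (#(ℕ → X)).ord.ToType) := by
    rw [← Cardinal.le_def]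
    simpa using hX
  have hseg : ∀ a : (#(ℕ → X)).ord.ToType, #{t : List X → X | e t ≤ a} < #(ℕ → X) := by
    intro a
    have h1 : #{t : List X → X | e t ≤ a} ≤ #(Set.Iic a) :=
      mk_le_of_injective (f := fun t => ⟨e t.1, t.2⟩)
        (fun x y h => Subtype.ext (e.injective (congrArg Subtype.val h)))
    refine h1.trans_lt ?_
    rw [← Set.Iio_insert]
    exact mk_insert_le.trans_lt (add_lt_of_lt hinf (mk_Iio_toType_ord_lt a)
      (one_lt_aleph0.trans_le hinf))
  have huniq : ∀ (s t : List X → X) (y y' : ℕ → X),
      (y = fun n => s (pre (fun m => t (pre y (m + 1))) n)) →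
      (y' = fun n => s (pre (fun m => t (pre y' (m + 1))) n)) → y = y' := by
    intro s t y y' h h'
    have key : ∀ n, y n = y' n := by
      intro n
      induction n using Nat.strong_induction_on with
      | _ n ih =>
        rw [congrFun h n, congrFun h' n]
        congr 1
        apply pre_congr
        intro i hi
        congr 1
        apply pre_congr
        intro j hj
        exact ih j (by omega)
    exact funext key
  have hy : ∀ t : List X → X, ∃ y : ℕ → X, ∀ s, e s ≤ e t →
      y ≠ fun n => s (pre (fun m => t (pre y (m + 1))) n) := by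
    intro t
    by_contra hcon
    push Not at hcon
    choose s hs hs' using hcon
    have hinj : Function.Injective
        (fun y => (⟨s y, hs y⟩ : {s : List X → X | e s ≤ e t})) := by
      intro y y' h
      have h1 : s y = s y' := congrArg Subtype.val h
      exact huniq (s y) t y y' (hs' y) (h1 ▸ hs' y')
    exact absurd (mk_le_of_injective hinj) (not_le.2 (hseg (e t)))
  choose y hy using hy
  refine ⟨{p | ∃ t, p = (y t, fun n => t (pre (y t) (n + 1)))}, fun t => ⟨y t, t, rfl⟩, ?_⟩
  intro K s hK
  obtain ⟨a, ha⟩ : ∃ a : (#(ℕ → X)).ord.ToType, ∀ α, e (s α) ≤ a := by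
    by_contra hcon
    push Not at hcon
    have hcof : IsCofinal (Set.range fun α => e (s α)) := by
      intro a
      obtain ⟨α, hα⟩ := hcon a
      exact ⟨_, ⟨α, rfl⟩, hα.le⟩
    have h1 := Order.cof_le hcof
    rw [Ordinal.cof_toType] at h1
    exact absurd (h1.trans mk_range_le) (not_le.2 hK)
  by_contra hcon
  push Not at hcon
  have h2 : ∀ z : ℕ → X, ∃ t, e t ≤ a ∧ z = fun n => t (pre (y t) (n + 1)) := by
    intro z
    obtain ⟨α, t, ht⟩ := hcon z
    have h3 : (fun n => s α (pre z n)) = y t := congrArg Prod.fst ht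
    have h4 : z = fun n => t (pre (y t) (n + 1)) := congrArg Prod.snd ht
    refine ⟨t, ?_, h4⟩
    by_contra hlt
    push Not at hlt
    apply hy t (s α) ((ha α).trans hlt.le)
    rw [← h4]
    exact h3.symm
  choose t ht ht' using h2
  have hinj : Function.Injective (fun z => (⟨t z, ht z⟩ : {s : List X → X | e s ≤ a})) := by
    intro z z' h
    have h1 : t z = t z' := congrArg Subtype.val h
    rw [ht' z, ht' z', h1]
  exact absurd (mk_le_of_injective hinj) (not_le.2 (hseg a))

end Pool.Agent.P.MP_0c777d_lc
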