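import Pool.Agent.Lib.PosetForcing.Cond

set_option autoImplicit false

open Pool.Agent.Lib.PosetForcing Filter

namespace Pool.Agent.P.MP_0c777d_lc

universe u

/-- the set of moves on one board -/
abbrev LL : Type u := ULift.{u} (ℕ → Bool)

/-- the forcing -/
abbrev PP (K : Type u) : Type u := Cond (K × LL.{u} × ℕ)

instance : Uncountable LL.{u} := by
  have : Uncountable (ℕ → Bool) := by
    rw [← Cardinal.aleph0_lt_mk_iff]
    simpa using Cardinal.aleph0_lt_continuum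
  exact Equiv.ulift.symm.injective.uncountable

variable {K : Type u} (W : Ultrafilter K) [CountableInterFilter (W : Filter K)]

theorem const_ae (f : K → LL.{u}) : ∃ l, ∀ᶠ α in W, f α = l := by
  have : ∀ m, ∃ b, ∀ᶠ α in W, (f α).down m = b := fun m => by
    by_cases h : ∀ᶠ α in W, (f α).down m = true
    · exact ⟨true, h⟩
    · exact ⟨false, (Ultrafilter.eventually_not.2 h).mono fun α h => by simpa using h⟩
  choose b hb using this
  exact ⟨⟨b⟩, (eventually_countable_forall.2 hb).mono fun α h => ULift.ext _ _ (funext h)⟩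

theorem ae_all (X : LL.{u} → K → Prop) (h : ∀ l, ∀ᶠ α in W, X l α) : ∀ᶠ α in W, ∀ l, X l α := by
  classical
  by_contra hcon
  have h1 := Ultrafilter.eventually_not.2 hcon
  let f : K → LL.{u} := fun α => if h : ∃ l, ¬ X l α then h.choose else default
  obtain ⟨l, hl⟩ := const_ae W f
  obtain ⟨α, h2, h3, h4⟩ := (h1.and (hl.and (h l))).exists
  have h5 : ∃ l, ¬ X l α := not_forall.1 h2
  apply h5.choose_spec
  have : f α = h5.choose := dif_pos h5
  rw [← this, h3]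
  exact h4

/-- the limit of a family of conditions -/
def root {X : Type u} (r : K → Cond X) : Cond X where
  s := {z | ∀ᶠ α in W, z ∈ (r α).s}
  cnt := by
    by_contra hcon
    have h1 : Cardinal.aleph 1 ≤ Cardinal.mk {z | ∀ᶠ α in W, z ∈ (r α).s} := by
      rw [← Cardinal.succ_aleph0, Order.succ_le_iff, ← not_le, Cardinal.le_aleph0_iff_set_countable]
      exact hcon
    obtain ⟨T, hT, hT'⟩ := Cardinal.le_mk_iff_exists_subset.1 h1
    have h2 : Cardinal.mk T ≤ Cardinal.mk LL.{u} := by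
      rw [hT']
      simpa using Cardinal.aleph_one_le_continuum
    obtain ⟨j⟩ := (Cardinal.le_def _ _).1 h2
    have : Nonempty T := Cardinal.mk_ne_zero_iff.1 (hT' ▸ (Cardinal.aleph_pos 1).ne')
    obtain ⟨α, hα⟩ := (ae_all W (fun l α => (Function.invFun j l).1 ∈ (r α).s)
      fun l => hT (Function.invFun j l).2).exists
    have h3 : T ⊆ (r α).s := fun z hz => by
      have := hα (j ⟨z, hz⟩)
      rwa [Function.leftInverse_invFun j.injective] at this
    have h4 := Cardinal.le_aleph0_iff_set_countable.2 ((r α).cnt.mono h3)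
    rw [hT'] at h4
    exact absurd h4 (not_le.2 Cardinal.aleph0_lt_aleph_one)
  fn x b b' h h' := by
    obtain ⟨α, h1, h2⟩ := (Eventually.and h h').exists
    exact (r α).fn x b b' h1 h2

theorem root_le_of {X : Type u} {r : K → Cond X} {p : Cond X} (h : ∀ᶠ α in W, r α ≤ p) :
    root W r ≤ p := fun _ hz => h.mono fun _ h => h hz

theorem compat_ae {X : Type u} {r : K → Cond X} {p : Cond X} (h : p ≤ root W r) :
    ∀ᶠ α in W, Cond.Compat p (r α) := by
  have : ∀ z ∈ p.s, ∀ᶠ α in W, ∀ b', (z.1, b') ∈ (r α).s → z.2 = b' := by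
    rintro ⟨x, b⟩ hz
    by_contra hcon
    have h1 : (x, !b) ∈ (root W r).s := (Ultrafilter.eventually_not.2 hcon).mono fun α h => by
      push Not at h
      obtain ⟨b', h1, h2⟩ := h
      have : b' = !b := by cases b <;> cases b' <;> simp_all
      exact this ▸ h1
    have := p.fn x b (!b) hz (h h1)
    simp at this
  exact ((eventually_countable_ball p.cnt).2 this).mono fun α h x b b' h1 h2 => h (x, b) h1 b' h2

omit [CountableInterFilter (W : Filter K)] in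
theorem exists_fresh (p : PP K) : ∃ ξ : LL.{u}, ∀ α m b, ((α, ξ, m), b) ∉ p.s := by
  by_contra hcon
  push Not at hcon
  have : (Set.univ : Set LL.{u}) ⊆ (fun z : (K × LL.{u} × ℕ) × Bool => z.1.2.1) '' p.s :=
    fun ξ _ => by
      obtain ⟨α, m, b, h⟩ := hcon ξ
      exact ⟨_, h, rfl⟩
  exact Set.not_countable_univ ((p.cnt.image _).mono this)

/-- a fresh block -/
noncomputable def xi (p : PP K) : LL.{u} := (exists_fresh p).choose

/-- the pattern `y` written on the block `(α, ξ)` -/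
def pat (α : K) (ξ y : LL.{u}) : PP K where
  s := Set.range fun m => ((α, ξ, m), y.down m)
  cnt := Set.countable_range _
  fn := by
    rintro x b b' ⟨m, h⟩ ⟨m', h'⟩
    simp only [Prod.mk.injEq] at h h'
    obtain ⟨rfl, rfl⟩ := h
    obtain ⟨h1, rfl⟩ := h'
    simp only [Prod.mk.injEq] at h1
    rw [h1.2.2]

theorem pat_unique {α : K} {ξ y y' : LL.{u}} {p : PP K} (h : p ≤ pat α ξ y) (h' : p ≤ pat α ξ y') :
    y = y' := ULift.ext _ _ (funext fun m => p.fn _ _ _ (h ⟨m, rfl⟩) (h' ⟨m, rfl⟩))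

theorem exists_pat (α : K) (ξ : LL.{u}) (p : PP K) : ∃ q ≤ p, ∃ y, q ≤ pat α ξ y := by
  classical
  let y : LL.{u} := ⟨fun m => decide (((α, ξ, m), true) ∈ p.s)⟩
  obtain ⟨q, h1, h2⟩ : ∃ q, q ≤ p ∧ q ≤ pat α ξ y := by
    apply Cond.Compat.exists_le
    rintro x b b' h ⟨m, h'⟩
    simp only [Prod.mk.injEq] at h'
    obtain ⟨rfl, rfl⟩ := h'
    cases b
    · simp only [y]
      symm
      rw [decide_eq_false_iff_not]
      intro h2
      simpa using p.fn _ _ _ h h2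
    · simp [y, h]
  exact ⟨q, h1, y, h2⟩

/-- values of a name for a move -/
abbrev Val (K : Type u) : Type u := PP K → K → LL.{u} → Prop

/-- below `p`, `φ` describes a total function -/
structure Good (p : PP K) (φ : Val K) : Prop where
  mono : ∀ q r α l, r ≤ q → φ q α l → φ r α l
  total : ∀ α, ∀ q ≤ p, ∃ r ≤ q, ∃ l, φ r α l
  func : ∀ q ≤ p, ∀ α l l', φ q α l → φ q α l' → l = l'

theorem Good.le {p q : PP K} {φ : Val K} (h : Good p φ) (hq : q ≤ p) : Good q φ :=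
  ⟨h.mono, fun α r hr => h.total α r (hr.trans hq), fun r hr => h.func r (hr.trans hq)⟩

/-- agreement below `p` -/
def Agree (p : PP K) (φ ψ : Val K) : Prop := ∀ q ≤ p, ∀ α l, φ q α l ↔ ψ q α l

theorem Agree.le {p q : PP K} {φ ψ : Val K} (h : Agree p φ ψ) (hq : q ≤ p) : Agree q φ ψ :=
  fun r hr => h r (hr.trans hq)

theorem Agree.symm {p : PP K} {φ ψ : Val K} (h : Agree p φ ψ) : Agree p ψ φ :=
  fun r hr α l => (h r hr α l).symm

/-- candidates for the next positive set and the constant value of `φ` on it -/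
def Cand (p : PP K) (φ : Val K) (r : K → PP K) (y : LL.{u}) (c : (K → PP K) × LL.{u}) : Prop :=
  p ≤ root W c.1 ∧ (∀ᶠ α in W, c.1 α ≤ r α ∧ c.1 α ≤ pat α (xi (r α)) y) ∧
    ∀ᶠ α in W, ∀ q ≤ p, q ≤ c.1 α → φ q α c.2

/-- the least candidate -/
def Least (p : PP K) (φ : Val K) (r : K → PP K) (y : LL.{u}) (c : (K → PP K) × LL.{u}) : Prop :=
  Cand W p φ r y c ∧ ∀ c', WellOrderingRel c' c → ∀ q ≤ p, ¬ Cand W q φ r y c'

variable {W}

theorem Cand.le {p q : PP K} {φ : Val K} {r : K → PP K} {y : LL.{u}} {c : (K → PP K) × LL.{u}}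
    (h : Cand W p φ r y c) (hq : q ≤ p) : Cand W q φ r y c :=
  ⟨hq.trans h.1, h.2.1, h.2.2.mono fun _ h s hs => h s (hs.trans hq)⟩

theorem Cand.agree {p : PP K} {φ ψ : Val K} {r : K → PP K} {y : LL.{u}} {c : (K → PP K) × LL.{u}}
    (h : Cand W p φ r y c) (e : Agree p φ ψ) : Cand W p ψ r y c :=
  ⟨h.1, h.2.1, h.2.2.mono fun α h s hs hs' => (e s hs α _).1 (h s hs hs')⟩

theorem Least.le {p q : PP K} {φ : Val K} {r : K → PP K} {y : LL.{u}} {c : (K → PP K) × LL.{u}}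
    (h : Least W p φ r y c) (hq : q ≤ p) : Least W q φ r y c :=
  ⟨h.1.le hq, fun c' hc s hs => h.2 c' hc s (hs.trans hq)⟩

theorem Least.agree {p : PP K} {φ ψ : Val K} {r : K → PP K} {y : LL.{u}} {c : (K → PP K) × LL.{u}}
    (h : Least W p φ r y c) (e : Agree p φ ψ) : Least W p ψ r y c :=
  ⟨h.1.agree e, fun c' hc s hs h' => h.2 c' hc s hs (h'.agree (e.le hs).symm)⟩

theorem Least.unique {p : PP K} {φ : Val K} {r : K → PP K} {y : LL.{u}}
    {c c' : (K → PP K) × LL.{u}} (h : Least W p φ r y c) (h' : Least W p φ r y c') : c = c' := by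
  rcases trichotomous_of WellOrderingRel c c' with h1 | h1 | h1
  · exact absurd h.1 (h'.2 c h1 p le_rfl)
  · exact h1
  · exact absurd h'.1 (h.2 c' h1 p le_rfl)

theorem exists_cand (hW : ∀ α, {α} ∉ W) {p : PP K} {φ : Val K} (hφ : Good p φ) {r : K → PP K}
    (hr : p ≤ root W r) (y : LL.{u}) : ∃ q ≤ p, ∃ c, Cand W q φ r y c := by
  classical
  have h1 : ∀ᶠ α in W, ∀ z ∈ p.s, z.1.1 ≠ α :=
    (eventually_countable_ball p.cnt).2 fun z _ =>
      (Ultrafilter.eventually_not.2 (hW z.1.1)).mono fun α h e => h e.symm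
  have h2 : ∀ᶠ α in W, ∃ x : PP K × LL.{u},
      x.1 ≤ p ∧ x.1 ≤ r α ∧ x.1 ≤ pat α (xi (r α)) y ∧ φ x.1 α x.2 := by
    filter_upwards [h1, compat_ae W hr] with α g1 g2
    obtain ⟨s, hs⟩ := Cond.exists_lower
      (fun i : Fin 3 => ![p, r α, pat α (xi (r α)) y] i) (by
        have e1 : Cond.Compat p (pat α (xi (r α)) y) := by
          rintro x b b' h ⟨m, h'⟩
          simp only [Prod.mk.injEq] at h'
          obtain ⟨rfl, rfl⟩ := h'
          exact absurd rfl (g1 _ h)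
        have e2 : Cond.Compat (r α) (pat α (xi (r α)) y) := by
          rintro x b b' h ⟨m, h'⟩
          simp only [Prod.mk.injEq] at h'
          obtain ⟨rfl, rfl⟩ := h'
          exact absurd h ((exists_fresh (r α)).choose_spec α m b)
        intro i j
        fin_cases i <;> fin_cases j
        exacts [p.fn, g2, e1, g2.symm, (r α).fn, e2, e1.symm, e2.symm, (pat _ _ _).fn])
    obtain ⟨t, ht, l, hl⟩ := hφ.total α s (hs 0)
    exact ⟨(t, l), ht.trans (hs 0), ht.trans (hs 1), ht.trans (hs 2), hl⟩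
  have : Nonempty (PP K × LL.{u}) := ⟨(p, y)⟩
  obtain ⟨x, hx⟩ := h2.choice
  obtain ⟨l, hl⟩ := const_ae W fun α => (x α).2
  refine ⟨root W fun α => (x α).1, root_le_of W (hx.mono fun α h => h.1),
    (fun α => (x α).1, l), le_rfl, hx.mono fun α h => ⟨h.2.1, h.2.2.1⟩, ?_⟩
  filter_upwards [hx, hl] with α g1 g2 q _ hq
  exact hφ.mono _ _ _ _ hq (g2 ▸ g1.2.2.2)

theorem exists_least (hW : ∀ α, {α} ∉ W) {p : PP K} {φ : Val K} (hφ : Good p φ) {r : K → PP K}
    (hr : p ≤ root W r) (y : LL.{u}) : ∃ q ≤ p, ∃ c, Least W q φ r y c := by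
  obtain ⟨q, hq, c, hc⟩ := exists_cand hW hφ hr y
  obtain ⟨c, ⟨q, hq, hc⟩, hmin⟩ := (IsWellFounded.wf (r := WellOrderingRel)).has_min
    {c | ∃ q ≤ p, Cand W q φ r y c} ⟨c, q, hq, hc⟩
  exact ⟨q, hq, c, hc, fun c' h s hs h' => hmin c' ⟨s, hs.trans hq, h'⟩ h⟩

variable (W) in
/-- the tree of positive sets along the moves `s` of ONE -/
def Node (p : PP K) (n : ℕ) (Φ : ℕ → Val K) (s : ℕ → LL.{u}) (r : ℕ → K → PP K)
    (t : ℕ → LL.{u}) : Prop :=
  r 0 = (fun _ => ⊤) ∧ ∀ i < n, Least W p (Φ (2 * i + 1)) (r i) (s i) (r (i + 1), t i)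

section node
variable {p q : PP K} {n : ℕ} {Φ Φ' Ψ Ψ' : ℕ → Val K} {s s' : ℕ → LL.{u}} {r r' : ℕ → K → PP K}
  {t t' : ℕ → LL.{u}}

theorem Node.le (h : Node W p n Φ s r t) (hq : q ≤ p) : Node W q n Φ s r t :=
  ⟨h.1, fun i hi => (h.2 i hi).le hq⟩

theorem Node.agree (h : Node W p n Φ s r t) (e : ∀ i < 2 * n, Agree p (Φ i) (Φ' i)) :
    Node W p n Φ' s r t := ⟨h.1, fun i hi => (h.2 i hi).agree (e _ (by omega))⟩

theorem Node.unique (h : Node W p n Φ s r t) (h' : Node W p n Φ s' r' t')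
    (e : ∀ i < n, s i = s' i) : (∀ i ≤ n, r i = r' i) ∧ ∀ i < n, t i = t' i := by
  have h1 : ∀ i ≤ n, r i = r' i := by
    intro i hi
    induction i with
    | zero => exact h.1.trans h'.1.symm
    | succ i ih =>
      have := h.2 i hi
      rw [ih (by omega), e i hi] at this
      exact congrArg Prod.fst (this.unique (h'.2 i hi))
  refine ⟨h1, fun i hi => ?_⟩
  have := h.2 i hi
  rw [h1 i hi.le, e i hi] at this
  exact congrArg Prod.snd (this.unique (h'.2 i hi))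

theorem Node.le_root (h : Node W p n Φ s r t) : p ≤ root W (r n) := by
  cases n with
  | zero =>
    rw [h.1]
    intro z hz
    exact (Eventually.exists hz).elim fun _ h => h.elim
  | succ n => exact (h.2 n n.lt_succ_self).1.1

theorem exists_node (hW : ∀ α, {α} ∉ W) (hΦ : ∀ i < 2 * n, Good p (Φ i)) (s : ℕ → LL.{u}) :
    ∃ q ≤ p, ∃ r t, Node W q n Φ s r t := by
  induction n with
  | zero => exact ⟨p, le_rfl, fun _ _ => ⊤, s, rfl, fun i hi => absurd hi (by omega)⟩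
  | succ n ih =>
    obtain ⟨q, hq, r, t, h⟩ := ih fun i hi => hΦ i (by omega)
    obtain ⟨q', hq', c, hc⟩ := exists_least hW ((hΦ (2 * n + 1) (by omega)).le hq) h.le_root (s n)
    refine ⟨q', hq'.trans hq, Function.update r (n + 1) c.1, Function.update t n c.2, ?_,
      fun i hi => ?_⟩
    · simpa using h.1
    · rcases Nat.lt_succ_iff_lt_or_eq.1 hi with hi | rfl
      · rw [Function.update_of_ne (by omega), Function.update_of_ne (by omega),
          Function.update_of_ne (by omega)]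
        exact (h.2 i hi).le hq'
      · rw [Function.update_of_ne (by omega), Function.update_self, Function.update_self]
        exact hc

theorem exists_decide (α : K) (hΦ : ∀ i < n, Good p (Φ i)) :
    ∃ q ≤ p, ∃ s : ℕ → LL.{u}, ∀ i < n, Φ i q α (s i) := by
  induction n with
  | zero => exact ⟨p, le_rfl, default, fun i hi => absurd hi (by omega)⟩
  | succ n ih =>
    obtain ⟨q, hq, s, h⟩ := ih fun i hi => hΦ i (by omega)
    obtain ⟨q', hq', l, hl⟩ := (hΦ n n.lt_succ_self).total α q hq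
    refine ⟨q', hq'.trans hq, Function.update s n l, fun i hi => ?_⟩
    rcases Nat.lt_succ_iff_lt_or_eq.1 hi with hi' | rfl
    · rw [Function.update_of_ne (by omega)]
      exact (hΦ i hi).mono _ _ _ _ hq' (h i hi')
    · rwa [Function.update_self]

variable (W) in
/-- the move of ONE in inning `n` -/
def oneV (n : ℕ) (Φ : ℕ → Val K) : Val K := fun p α l => ∃ q, p ≤ q ∧
  ∃ s r t, Node W q n Φ s r t ∧ (∀ i < n, Φ (2 * i) q α (s i)) ∧ q ≤ pat α (xi (r n α)) l

variable (W) in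
/-- the move of TWO in inning `n` -/
def twoV (Φ : ℕ → Val K) (n : ℕ) (Ψ : ℕ → Val K) : Val K := fun p β l => ∃ q, p ≤ q ∧
  ∃ s r t, Node W q (n + 1) Φ s r t ∧ (∀ i < n + 1, Ψ (2 * i) q β (s i)) ∧ l = t n

theorem oneV_good (hW : ∀ α, {α} ∉ W) (hΦ : ∀ i < 2 * n, Good p (Φ i)) :
    Good p (oneV W n Φ) := by
  refine ⟨fun q r α l h ⟨q', h1, h2⟩ => ⟨q', h.trans h1, h2⟩, fun α q hq => ?_, ?_⟩
  · obtain ⟨q1, h1, s, hs⟩ := exists_decide (n := n) (Φ := fun i => Φ (2 * i)) α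
      fun i hi => (hΦ _ (by omega)).le hq
    obtain ⟨q2, h2, r, t, h⟩ := exists_node hW (fun i hi => (hΦ i hi).le (h1.trans hq)) s
    obtain ⟨q3, h3, l, hl⟩ := exists_pat α (xi (r n α)) q2
    exact ⟨q3, h3.trans (h2.trans h1), l, q3, le_rfl, s, r, t, h.le h3,
      fun i hi => (hΦ _ (by omega)).mono _ _ _ _ (h3.trans h2) (hs i hi), hl⟩
  · rintro q hq α l l' ⟨q1, e1, s, r, t, h1, h2, h3⟩ ⟨q2, e2, s', r', t', g1, g2, g3⟩
    have := ((h1.le e1).unique (g1.le e2) fun i hi => (hΦ (2 * i) (by omega)).func q hq α _ _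
      ((hΦ _ (by omega)).mono _ _ _ _ e1 (h2 i hi))
      ((hΦ _ (by omega)).mono _ _ _ _ e2 (g2 i hi))).1 n le_rfl
    rw [this] at h3
    exact pat_unique (e1.trans h3) (e2.trans g3)

theorem twoV_good (hW : ∀ α, {α} ∉ W) (hΦ : ∀ i, Good p (Φ i))
    (hΨ : ∀ i < 2 * n + 1, Good p (Ψ i)) : Good p (twoV W Φ n Ψ) := by
  refine ⟨fun q r α l h ⟨q', h1, h2⟩ => ⟨q', h.trans h1, h2⟩, fun α q hq => ?_, ?_⟩
  · obtain ⟨q1, h1, s, hs⟩ := exists_decide (n := n + 1) (Φ := fun i => Ψ (2 * i)) α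
      fun i hi => (hΨ _ (by omega)).le hq
    obtain ⟨q2, h2, r, t, h⟩ := exists_node (n := n + 1) hW
      (fun i _ => (hΦ i).le (h1.trans hq)) s
    exact ⟨q2, h2.trans h1, t n, q2, le_rfl, s, r, t, h,
      fun i hi => (hΨ _ (by omega)).mono _ _ _ _ h2 (hs i hi), rfl⟩
  · rintro q hq α l l' ⟨q1, e1, s, r, t, h1, h2, rfl⟩ ⟨q2, e2, s', r', t', g1, g2, rfl⟩
    exact ((h1.le e1).unique (g1.le e2) fun i hi => (hΨ (2 * i) (by omega)).func q hq α _ _
      ((hΨ _ (by omega)).mono _ _ _ _ e1 (h2 i hi))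
      ((hΨ _ (by omega)).mono _ _ _ _ e2 (g2 i hi))).2 n n.lt_succ_self

/-- monotone values -/
def Mon (φ : Val K) : Prop := ∀ q r α l, r ≤ q → φ q α l → φ r α l

theorem oneV_agree (hΦ : ∀ i, Mon (Φ i)) (hΦ' : ∀ i, Mon (Φ' i))
    (e : ∀ i < 2 * n, Agree p (Φ i) (Φ' i)) : Agree p (oneV W n Φ) (oneV W n Φ') := by
  have key : ∀ Φ Φ' : ℕ → Val K, (∀ i, Mon (Φ i)) → (∀ i < 2 * n, Agree p (Φ i) (Φ' i)) →
      ∀ q ≤ p, ∀ α l, oneV W n Φ q α l → oneV W n Φ' q α l := by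
    rintro Φ Φ' hΦ e q hq α l ⟨q1, e1, s, r, t, h1, h2, h3⟩
    exact ⟨q, le_rfl, s, r, t, (h1.le e1).agree fun i hi => (e i hi).le hq,
      fun i hi => (e _ (by omega) q hq α _).1 (hΦ _ _ _ _ _ e1 (h2 i hi)), e1.trans h3⟩
  exact fun q hq α l => ⟨key _ _ hΦ e q hq α l, key _ _ hΦ' (fun i hi => (e i hi).symm) q hq α l⟩

theorem twoV_agree (hΨ : ∀ i, Mon (Ψ i)) (hΨ' : ∀ i, Mon (Ψ' i))
    (e : ∀ i < 2 * n + 1, Agree p (Ψ i) (Ψ' i)) : Agree p (twoV W Φ n Ψ) (twoV W Φ n Ψ') := by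
  have key : ∀ Ψ Ψ' : ℕ → Val K, (∀ i, Mon (Ψ i)) → (∀ i < 2 * n + 1, Agree p (Ψ i) (Ψ' i)) →
      ∀ q ≤ p, ∀ α l, twoV W Φ n Ψ q α l → twoV W Φ n Ψ' q α l := by
    rintro Ψ Ψ' hΨ e q hq α l ⟨q1, e1, s, r, t, h1, h2, h3⟩
    exact ⟨q, le_rfl, s, r, t, h1.le e1,
      fun i hi => (e _ (by omega) q hq α _).1 (hΨ _ _ _ _ _ e1 (h2 i hi)), h3⟩
  exact fun q hq α l => ⟨key _ _ hΨ e q hq α l, key _ _ hΨ' (fun i hi => (e i hi).symm) q hq α l⟩

/-- every board of a play that follows the strategy of TWO is a board of the given play -/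
theorem core (hW : ∀ α, {α} ∉ W) (hΦ : ∀ i, Good p (Φ i)) (hΨ : ∀ i, Good p (Ψ i))
    (h1 : ∀ n, ∀ q ≤ p, ∀ α l, oneV W n Φ q α l → Φ (2 * n) q α l)
    (h2 : ∀ n, ∀ q ≤ p, ∀ α l, twoV W Φ n Ψ q α l → Ψ (2 * n + 1) q α l) (β : K) :
    ∃ q ≤ p, ∃ α, ∃ a : ℕ → LL.{u}, ∀ n, Φ n q α (a n) ∧ Ψ n q β (a n) := by
  obtain ⟨p1, hp1, ha⟩ := exists_le_forall Cond.exists_lower_of_antitone p
    (fun n q => ∃ l, Ψ n q β l) (fun n q r h ⟨l, hl⟩ => ⟨l, (hΨ n).mono _ _ _ _ h hl⟩)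
    fun n => (hΨ n).total β
  choose a ha using ha
  obtain ⟨p2, hp2, hn⟩ := exists_le_forall Cond.exists_lower_of_antitone p1
    (fun n q => ∃ r t, Node W q n Φ (fun i => a (2 * i)) r t)
    (fun n q r h ⟨r', t, hl⟩ => ⟨r', t, hl.le h⟩)
    fun n q hq => exists_node hW (fun i _ => (hΦ i).le (hq.trans hp1)) _
  choose R T hRT using hn
  have hp : p2 ≤ p := hp2.trans hp1
  have coh : ∀ n m, n ≤ m → (∀ i ≤ n, R n i = R m i) ∧ ∀ i < n, T n i = T m i := fun n m h =>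
    (hRT n).unique ⟨(hRT m).1, fun i hi => (hRT m).2 i (by omega)⟩ fun _ _ => rfl
  let r : ℕ → K → PP K := fun i => R i i
  let t : ℕ → LL.{u} := fun i => T (i + 1) i
  have hnode : ∀ n, Node W p2 n Φ (fun i => a (2 * i)) r t := fun n => by
    refine ⟨(hRT 0).1, fun i _ => ?_⟩
    have := (hRT (i + 1)).2 i i.lt_succ_self
    rwa [← (coh i (i + 1) i.le_succ).1 i le_rfl] at this
  have ha2 : ∀ n, Ψ n p2 β (a n) := fun n => (hΨ n).mono _ _ _ _ hp2 (ha n)
  have ht : ∀ n, t n = a (2 * n + 1) := fun n => (hΨ _).func p2 hp β _ _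
    (h2 n p2 hp β _ ⟨p2, le_rfl, _, r, t, hnode _, fun i _ => ha2 _, rfl⟩) (ha2 _)
  have hc : ∀ n, Cand W p2 (Φ (2 * n + 1)) (r n) (a (2 * n)) (r (n + 1), t n) :=
    fun n => ((hnode (n + 1)).2 n n.lt_succ_self).1
  obtain ⟨α, g1, g2, g3⟩ := ((eventually_countable_forall.2 fun n => (hc n).2.1).and
    ((eventually_countable_forall.2 fun n => (hc n).2.2).and
      (eventually_countable_forall.2 fun n => compat_ae W (hnode n).le_root))).exists
  obtain ⟨q1, hq1⟩ : ∃ q, ∀ i : Option ℕ, q ≤ i.elim p2 fun n => r n α := by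
    have hanti : Antitone fun n => r n α := antitone_nat_of_succ_le fun n => (g1 n).1
    apply Cond.exists_lower
    rintro (_ | i) (_ | j)
    · exact p2.fn
    · exact g3 j
    · exact (g3 i).symm
    · rcases le_total i j with hij | hij
      · exact Cond.compat_of_le (hanti hij) le_rfl
      · exact Cond.compat_of_le le_rfl (hanti hij)
  have hq : q1 ≤ p2 := hq1 none
  have heven : ∀ n, Φ (2 * n) q1 α (a (2 * n)) := by
    intro n
    induction n using Nat.strong_induction_on with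
    | _ n ih =>
      exact h1 n q1 (hq.trans hp) α _ ⟨q1, le_rfl, _, r, t, (hnode n).le hq, ih,
        le_trans (hq1 (some (n + 1))) (g1 n).2⟩
  refine ⟨q1, hq.trans hp, α, a, fun n => ⟨?_, (hΨ n).mono _ _ _ _ hq (ha2 n)⟩⟩
  obtain ⟨m, rfl | rfl⟩ := Nat.even_or_odd' n
  · exact heven m
  · exact ht m ▸ g2 m q1 hq (hq1 (some (m + 1)))

end node

end Pool.Agent.P.MP_0c777d_lc
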