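import Pool.Agent.P.MP_0c777d_lc.Main

set_option autoImplicit false

/-! Combinatorial core without large cardinals: ONE reads fresh generic blocks of one column. -/

open Pool.Agent.Lib.PosetForcing

namespace Pool.Agent.P.MP_0c777d_lc.Free

universe u

variable {J : Type u}

/-- values of a name for a move; boards and moves both range over `LL` -/
abbrev Vl (J : Type u) : Type u := PP J → LL.{u} → LL.{u} → Prop

/-- monotone values -/
def Mn (φ : Vl J) : Prop := ∀ q r α l, r ≤ q → φ q α l → φ r α l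

/-- below `p`, `φ` describes a total function -/
structure Gd (p : PP J) (φ : Vl J) : Prop where
  mono : Mn φ
  total : ∀ α, ∀ q ≤ p, ∃ r ≤ q, ∃ l, φ r α l
  func : ∀ q ≤ p, ∀ α l l', φ q α l → φ q α l' → l = l'

theorem Gd.le {p q : PP J} {φ : Vl J} (h : Gd p φ) (hq : q ≤ p) : Gd q φ :=
  ⟨h.mono, fun α r hr => h.total α r (hr.trans hq), fun r hr => h.func r (hr.trans hq)⟩

/-- agreement below `p` -/
def Ag (p : PP J) (φ ψ : Vl J) : Prop := ∀ q ≤ p, ∀ α l, φ q α l ↔ ψ q α l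

theorem Ag.le {p q : PP J} {φ ψ : Vl J} (h : Ag p φ ψ) (hq : q ≤ p) : Ag q φ ψ :=
  fun r hr => h r (hr.trans hq)

theorem Ag.symm {p : PP J} {φ ψ : Vl J} (h : Ag p φ ψ) : Ag p ψ φ :=
  fun r hr α l => (h r hr α l).symm

theorem Ag.trans {p : PP J} {φ ψ χ : Vl J} (h : Ag p φ ψ) (h' : Ag p ψ χ) : Ag p φ χ :=
  fun r hr α l => (h r hr α l).trans (h' r hr α l)

/-- `ψ` is the least representative of `φ` below `p` -/
def Lst (p : PP J) (φ ψ : Vl J) : Prop :=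
  Ag p φ ψ ∧ ∀ ψ', WellOrderingRel ψ' ψ → ∀ q ≤ p, ¬ Ag q φ ψ'

theorem Lst.le {p q : PP J} {φ ψ : Vl J} (h : Lst p φ ψ) (hq : q ≤ p) : Lst q φ ψ :=
  ⟨h.1.le hq, fun ψ' h' r hr => h.2 ψ' h' r (hr.trans hq)⟩

theorem Lst.agree {p : PP J} {φ φ' ψ : Vl J} (h : Lst p φ ψ) (e : Ag p φ φ') : Lst p φ' ψ :=
  ⟨e.symm.trans h.1, fun ψ' h' r hr h2 => h.2 ψ' h' r hr ((e.le hr).trans h2)⟩

theorem Lst.unique {p : PP J} {φ ψ ψ' : Vl J} (h : Lst p φ ψ) (h' : Lst p φ ψ') : ψ = ψ' := by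
  rcases trichotomous_of WellOrderingRel ψ ψ' with h1 | h1 | h1
  · exact absurd h.1 (h'.2 ψ h1 p le_rfl)
  · exact h1
  · exact absurd h'.1 (h.2 ψ' h1 p le_rfl)

theorem exists_lst (p : PP J) (φ : Vl J) : ∃ q ≤ p, ∃ ψ, Lst q φ ψ := by
  obtain ⟨ψ, ⟨q, hq, hψ⟩, hmin⟩ := (IsWellFounded.wf (r := WellOrderingRel)).has_min
    {ψ | ∃ q ≤ p, Ag q φ ψ} ⟨φ, p, le_rfl, fun _ _ _ _ => Iff.rfl⟩
  exact ⟨q, hq, ψ, hψ, fun ψ' h r hr h' => hmin ψ' ⟨r, hr.trans hq, h'⟩ h⟩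

/-- a maximal antichain of conditions that fix the value of `ψ` on the board `α` -/
noncomputable def ac (ψ : Vl J) (α : LL.{u}) : Set (PP J) :=
  (exists_max_antichain {a : PP J | ∃ l, ∀ q ≤ a, ψ q α l}).choose

theorem ac_val {ψ : Vl J} {α : LL.{u}} {a : PP J} (h : a ∈ ac ψ α) : ∃ l, ∀ q ≤ a, ψ q α l :=
  (exists_max_antichain {a : PP J | ∃ l, ∀ q ≤ a, ψ q α l}).choose_spec.1 h

theorem ac_unique {ψ : Vl J} {α : LL.{u}} {a a' q : PP J} (h : a ∈ ac ψ α) (h' : a' ∈ ac ψ α)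
    (e : q ≤ a) (e' : q ≤ a') : a = a' :=
  (exists_max_antichain {a : PP J | ∃ l, ∀ q ≤ a, ψ q α l}).choose_spec.2.1 a h a' h' q e e'

theorem exists_ac {p : PP J} {φ ψ : Vl J} (hφ : Gd p φ) (e : Ag p φ ψ) (α : LL.{u}) :
    ∃ r ≤ p, ∃ a ∈ ac ψ α, r ≤ a := by
  obtain ⟨q, hq, l, hl⟩ := hφ.total α p le_rfl
  obtain ⟨a, ha, r, h1, h2⟩ :=
    (exists_max_antichain {a : PP J | ∃ l, ∀ q ≤ a, ψ q α l}).choose_spec.2.2 q
      ⟨l, fun r hr => (e r (hr.trans hq) α l).1 (hφ.mono _ _ _ _ hr hl)⟩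
  exact ⟨r, h2.trans hq, a, ha, h1⟩

/-- a block outside `T` -/
noncomputable def fresh (T : Set LL.{u}) : LL.{u} := Classical.epsilon fun ξ => ξ ∉ T

theorem fresh_notMem {T : Set LL.{u}} (hT : T.Countable) : fresh T ∉ T := by
  refine Classical.epsilon_spec (p := fun ξ => ξ ∉ T) ?_
  by_contra hcon
  push Not at hcon
  exact Set.not_countable_univ (hT.mono fun ξ _ => hcon ξ)

/-- the blocks used before inning `n` -/
noncomputable def us (a : ℕ → PP J) : ℕ → Set LL.{u}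
  | 0 => ∅
  | n + 1 => us a n ∪ {fresh (us a n)} ∪ (fun z : (J × LL.{u} × ℕ) × Bool => z.1.2.1) '' (a n).s

/-- the block read in inning `n` -/
noncomputable def blk (a : ℕ → PP J) (n : ℕ) : LL.{u} := fresh (us a n)

theorem us_countable (a : ℕ → PP J) (n : ℕ) : (us a n).Countable := by
  induction n with
  | zero => exact Set.countable_empty
  | succ n ih => exact (ih.union (Set.countable_singleton _)).union ((a n).cnt.image _)

theorem us_mono (a : ℕ → PP J) : Monotone (us a) :=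
  monotone_nat_of_le_succ fun _ _ h => Or.inl (Or.inl h)

theorem us_congr {a a' : ℕ → PP J} {n : ℕ} (e : ∀ i < n, a i = a' i) : us a n = us a' n := by
  induction n with
  | zero => rfl
  | succ n ih => rw [us, us, ih fun i hi => e i (by omega), e n n.lt_succ_self]

theorem blk_congr {a a' : ℕ → PP J} {n : ℕ} (e : ∀ i < n, a i = a' i) : blk a n = blk a' n := by
  rw [blk, blk, us_congr e]

theorem blk_ne (a : ℕ → PP J) {i n : ℕ} (h : i < n) : blk a i ≠ blk a n := fun e =>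
  fresh_notMem (us_countable a n) (us_mono a h (Or.inl (Or.inr e.symm)) : blk a n ∈ us a n)

theorem blk_fresh (a : ℕ → PP J) {i n : ℕ} (h : i < n) (j : J) (m : ℕ) (b : Bool) :
    ((j, blk a n, m), b) ∉ (a i).s := fun e =>
  fresh_notMem (us_countable a n) (us_mono a h (Or.inr ⟨_, e, rfl⟩) : blk a n ∈ us a n)

theorem exists_dec {p : PP J} {n : ℕ} {Φ : ℕ → Vl J} (α : LL.{u}) (hΦ : ∀ i < n, Gd p (Φ i)) :
    ∃ q ≤ p, ∃ s : ℕ → LL.{u}, ∀ i < n, Φ i q α (s i) := by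
  induction n with
  | zero => exact ⟨p, le_rfl, default, fun i hi => absurd hi (by omega)⟩
  | succ n ih =>
    obtain ⟨q, hq, s, h⟩ := ih fun i hi => hΦ i (by omega)
    obtain ⟨q', hq', l, hl⟩ := (hΦ n n.lt_succ_self).total α q hq
    refine ⟨q', hq'.trans hq, Function.update s n l, fun i hi => ?_⟩
    rcases Nat.lt_succ_iff_lt_or_eq.1 hi with hi' | rfl
    · rw [Function.update_of_ne (by omega)]
      exact (hΦ i hi).mono _ _ _ _ hq' (h i hi')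
    · rwa [Function.update_self]

/-- the move of ONE in inning `n`: the generic pattern on a fresh block of the column `c α` -/
def oneF (c : LL.{u} → J) (n : ℕ) (Φ : ℕ → Vl J) : Vl J := fun p α l =>
  ∃ (ψ : ℕ → Vl J) (a : ℕ → PP J),
    (∀ i < n, Lst p (Φ (2 * i + 1)) (ψ i) ∧ a i ∈ ac (ψ i) α ∧ p ≤ a i) ∧
      p ≤ pat (c α) (blk a n) l

theorem oneF_mon (c : LL.{u} → J) (n : ℕ) (Φ : ℕ → Vl J) : Mn (oneF c n Φ) :=
  fun _ _ _ _ h ⟨ψ, a, h1, h2⟩ =>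
    ⟨ψ, a, fun i hi => ⟨(h1 i hi).1.le h, (h1 i hi).2.1, h.trans (h1 i hi).2.2⟩, h.trans h2⟩

theorem oneF_good (c : LL.{u} → J) {n : ℕ} {p : PP J} {Φ : ℕ → Vl J}
    (hΦ : ∀ i < 2 * n, Gd p (Φ i)) : Gd p (oneF c n Φ) := by
  refine ⟨oneF_mon c n Φ, fun α q hq => ?_, ?_⟩
  · have key : ∀ m ≤ n, ∃ r ≤ q, ∃ (ψ : ℕ → Vl J) (a : ℕ → PP J),
        ∀ i < m, Lst r (Φ (2 * i + 1)) (ψ i) ∧ a i ∈ ac (ψ i) α ∧ r ≤ a i := by
      intro m hm
      induction m with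
      | zero => exact ⟨q, le_rfl, Φ, fun _ => q, fun i hi => absurd hi (by omega)⟩
      | succ m ih =>
        obtain ⟨r, hr, ψ, a, h⟩ := ih (by omega)
        obtain ⟨r1, hr1, χ, hχ⟩ := exists_lst r (Φ (2 * m + 1))
        obtain ⟨r2, hr2, x, hx, hx'⟩ := exists_ac
          ((hΦ (2 * m + 1) (by omega)).le (hr1.trans (hr.trans hq))) hχ.1 α
        refine ⟨r2, hr2.trans (hr1.trans hr), Function.update ψ m χ, Function.update a m x,
          fun i hi => ?_⟩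
        rcases Nat.lt_succ_iff_lt_or_eq.1 hi with hi' | rfl
        · rw [Function.update_of_ne (by omega), Function.update_of_ne (by omega)]
          exact ⟨(h i hi').1.le (hr2.trans hr1), (h i hi').2.1,
            (hr2.trans hr1).trans (h i hi').2.2⟩
        · rw [Function.update_self, Function.update_self]
          exact ⟨hχ.le hr2, hx, hx'⟩
    obtain ⟨r, hr, ψ, a, h⟩ := key n le_rfl
    obtain ⟨r', hr', l, hl⟩ := exists_pat (c α) (blk a n) r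
    exact ⟨r', hr'.trans hr, l, ψ, a,
      fun i hi => ⟨(h i hi).1.le hr', (h i hi).2.1, hr'.trans (h i hi).2.2⟩, hl⟩
  · rintro q - α l l' ⟨ψ, a, h1, h2⟩ ⟨ψ', a', g1, g2⟩
    have e : ∀ i < n, a i = a' i := fun i hi => by
      have e1 := (h1 i hi).1.unique (g1 i hi).1
      exact ac_unique (h1 i hi).2.1 (e1 ▸ (g1 i hi).2.1) (h1 i hi).2.2 (g1 i hi).2.2
    rw [blk_congr e] at h2
    exact pat_unique h2 g2

theorem oneF_agree (c : LL.{u} → J) {n : ℕ} {p : PP J} {Φ Φ' : ℕ → Vl J}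
    (e : ∀ i < 2 * n, Ag p (Φ i) (Φ' i)) : Ag p (oneF c n Φ) (oneF c n Φ') := by
  have key : ∀ Φ Φ' : ℕ → Vl J, (∀ i < 2 * n, Ag p (Φ i) (Φ' i)) →
      ∀ q ≤ p, ∀ α l, oneF c n Φ q α l → oneF c n Φ' q α l := by
    rintro Φ Φ' e q hq α l ⟨ψ, a, h1, h2⟩
    exact ⟨ψ, a, fun i hi => ⟨(h1 i hi).1.agree ((e _ (by omega)).le hq), (h1 i hi).2⟩, h2⟩
  exact fun q hq α l => ⟨key _ _ e q hq α l, key _ _ (fun i hi => (e i hi).symm) q hq α l⟩

/-- `q` extends the part of `x` outside the column `j` -/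
def OffLe (j : J) (q x : PP J) : Prop := ∀ z ∈ x.s, z.1.1 ≠ j → z ∈ q.s

/-- `x` and `y` are compatible on the column `j` -/
def CC (j : J) (x y : PP J) : Prop :=
  ∀ z b b', z.1 = j → (z, b) ∈ x.s → (z, b') ∈ y.s → b = b'

theorem CC.symm {j : J} {x y : PP J} (h : CC j x y) : CC j y x :=
  fun z b b' e h1 h2 => (h z b' b e h2 h1).symm

theorem cc_of_le {j : J} {x y r : PP J} (h : r ≤ x) (h' : r ≤ y) : CC j x y :=
  fun z b b' _ h1 h2 => r.fn z b b' (h h1) (h' h2)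

theorem offLe_pat (j : J) (q : PP J) (ξ y : LL.{u}) : OffLe j q (pat j ξ y) := by
  rintro z ⟨m, rfl⟩ h
  exact absurd rfl h

theorem exists_glue {ι : Type} [Countable ι] (j : J) (q : PP J) (x : ι → PP J)
    (h1 : ∀ i k, CC j (x i) (x k)) (h2 : ∀ i, OffLe j q (x i)) :
    ∃ w, (∀ i, w ≤ x i) ∧ OffLe j w q ∧ OffLe j q w := by
  refine ⟨⟨{z | (z.1.1 ≠ j ∧ z ∈ q.s) ∨ (z.1.1 = j ∧ ∃ i, z ∈ (x i).s)}, ?_, ?_⟩, ?_, ?_, ?_⟩
  · refine (q.cnt.union (Set.countable_iUnion fun i => (x i).cnt)).mono ?_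
    rintro z (h | ⟨-, i, h⟩)
    · exact Or.inl h.2
    · exact Or.inr (Set.mem_iUnion.2 ⟨i, h⟩)
  · rintro z b b' (h | ⟨e, i, h⟩) (h' | ⟨e', k, h'⟩)
    · exact q.fn z b b' h.2 h'.2
    · exact absurd e' h.1
    · exact absurd e h'.1
    · exact h1 i k z b b' e h h'
  · intro i z hz
    by_cases e : z.1.1 = j
    · exact Or.inr ⟨e, i, hz⟩
    · exact Or.inl ⟨e, h2 i z hz e⟩
  · exact fun z hz e => Or.inl ⟨e, hz⟩
  · rintro z (h | h) e
    · exact h.2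
    · exact absurd h.1 e

section two
variable (j : J) (α : LL.{u}) (ψ : ℕ → Vl J)

/-- candidates for the condition that fixes the reply of TWO in inning `n` -/
def Cd (q : PP J) (a : ℕ → PP J) (s : ℕ → LL.{u}) (n : ℕ) (x : PP J) : Prop :=
  x ∈ ac (ψ n) α ∧ OffLe j q x ∧ (∀ i ≤ n, CC j x (pat j (blk a i) (s i))) ∧
    ∀ i < n, CC j x (a i)

/-- the tree of least candidates along the moves `s` of ONE -/
def Nd (q : PP J) (n : ℕ) (s : ℕ → LL.{u}) (a : ℕ → PP J) : Prop :=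
  ∀ i < n, Cd j α ψ q a s i (a i) ∧
    ∀ x, WellOrderingRel x (a i) → ∀ r ≤ q, ¬ Cd j α ψ r a s i x

/-- the move of TWO in inning `n` -/
def twoF (n : ℕ) (Ψ : ℕ → Vl J) : Vl J := fun q β l =>
  ∃ s a, Nd j α ψ q (n + 1) s a ∧ (∀ i < n + 1, Ψ (2 * i) q β (s i)) ∧ ∀ r ≤ a n, ψ n r α l

variable {j α ψ}
variable {p q r : PP J} {a a' : ℕ → PP J} {s s' : ℕ → LL.{u}} {n : ℕ} {x : PP J}
  {Φ Ψ Ψ' : ℕ → Vl J}

theorem Cd.le (h : Cd j α ψ q a s n x) (hr : r ≤ q) : Cd j α ψ r a s n x :=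
  ⟨h.1, fun z hz e => hr (h.2.1 z hz e), h.2.2⟩

theorem Cd.congr (h : Cd j α ψ q a s n x) (e : ∀ i < n, a i = a' i) (e' : ∀ i ≤ n, s i = s' i) :
    Cd j α ψ q a' s' n x :=
  ⟨h.1, h.2.1, fun i hi => by
    rw [← e' i hi, ← blk_congr fun k hk => e k (by omega)]
    exact h.2.2.1 i hi, fun i hi => e i hi ▸ h.2.2.2 i hi⟩

theorem Nd.le (h : Nd j α ψ q n s a) (hr : r ≤ q) : Nd j α ψ r n s a :=
  fun i hi => ⟨(h i hi).1.le hr, fun x hx t ht => (h i hi).2 x hx t (ht.trans hr)⟩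

theorem Nd.congr (h : Nd j α ψ q n s a) (e : ∀ i < n, a i = a' i) : Nd j α ψ q n s a' := by
  intro i hi
  rw [← e i hi]
  exact ⟨(h i hi).1.congr (fun k hk => e k (by omega)) fun _ _ => rfl, fun x hx t ht h' =>
    (h i hi).2 x hx t ht (h'.congr (fun k hk => (e k (by omega)).symm) fun _ _ => rfl)⟩

theorem Nd.unique (h : Nd j α ψ q n s a) (h' : Nd j α ψ q n s' a') (e : ∀ i < n, s i = s' i) :
    ∀ i < n, a i = a' i := by
  intro i
  induction i using Nat.strong_induction_on with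
  | _ i ih =>
    intro hi
    have e1 : ∀ k < i, a k = a' k := fun k hk => ih k hk (by omega)
    have e2 : ∀ k ≤ i, s k = s' k := fun k hk => e k (by omega)
    rcases trichotomous_of WellOrderingRel (a i) (a' i) with h1 | h1 | h1
    · exact absurd ((h i hi).1.congr e1 e2) ((h' i hi).2 _ h1 q le_rfl)
    · exact h1
    · exact absurd ((h' i hi).1.congr (fun k hk => (e1 k hk).symm) fun k hk => (e2 k hk).symm)
        ((h i hi).2 _ h1 q le_rfl)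

theorem cc_pat_pat (a : ℕ → PP J) (s : ℕ → LL.{u}) (i k : ℕ) :
    CC j (pat j (blk a i) (s i)) (pat j (blk a k) (s k)) := by
  rintro z b b' - ⟨m, h⟩ ⟨m', h'⟩
  simp only [Prod.mk.injEq] at h h'
  obtain ⟨rfl, rfl⟩ := h
  obtain ⟨h1, rfl⟩ := h'
  simp only [Prod.mk.injEq] at h1
  rcases lt_trichotomy i k with h | rfl | h
  · exact absurd h1.2.1.symm (blk_ne a h)
  · rw [h1.2.2]
  · exact absurd h1.2.1 (blk_ne a h)

theorem Nd.cc_pat (h : Nd j α ψ q n s a) {i : ℕ} (hi : i < n) (k : ℕ) :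
    CC j (a i) (pat j (blk a k) (s k)) := by
  rcases le_or_gt k i with hk | hk
  · exact (h i hi).1.2.2.1 k hk
  · rintro z b b' - h1 ⟨m, h'⟩
    simp only [Prod.mk.injEq] at h'
    obtain ⟨rfl, rfl⟩ := h'
    exact absurd h1 (blk_fresh a hk j m b)

theorem Nd.cc (h : Nd j α ψ q n s a) {i k : ℕ} (hi : i < n) (hk : k < n) : CC j (a i) (a k) := by
  rcases lt_trichotomy i k with h1 | rfl | h1
  · exact ((h k hk).1.2.2.2 i h1).symm
  · exact cc_of_le le_rfl le_rfl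
  · exact (h i hi).1.2.2.2 k h1

theorem le_of_offLe (hj : ∀ z ∈ p.s, z.1.1 ≠ j) (hq : q ≤ p) {w : PP J} (h : OffLe j w q) :
    w ≤ p := fun z hz => h z (hq hz) (hj z hz)

theorem exists_nd (hj : ∀ z ∈ p.s, z.1.1 ≠ j) (hΦ : ∀ i, Gd p (Φ i))
    (hψ : ∀ i, Ag p (Φ (2 * i + 1)) (ψ i)) (hq : q ≤ p) (n : ℕ) (s : ℕ → LL.{u}) :
    ∃ r ≤ q, ∃ a, Nd j α ψ r n s a := by
  induction n with
  | zero => exact ⟨q, le_rfl, fun _ => q, fun i hi => absurd hi (by omega)⟩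
  | succ n ih =>
    obtain ⟨r, hr, a, h⟩ := ih
    obtain ⟨w, w1, w2, -⟩ := exists_glue (ι := Fin n ⊕ ℕ) j r
      (Sum.elim (fun i => a i) fun k => pat j (blk a k) (s k))
      (by
        rintro (i | i) (k | k)
        · exact h.cc i.2 k.2
        · exact h.cc_pat i.2 k
        · exact (h.cc_pat k.2 i).symm
        · exact cc_pat_pat a s i k)
      (by
        rintro (i | i)
        · exact (h i i.2).1.2.1
        · exact offLe_pat j r _ _)
    have hw : w ≤ p := le_of_offLe hj (hr.trans hq) w2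
    obtain ⟨t, ht, x, hx, hx'⟩ := exists_ac ((hΦ (2 * n + 1)).le hw) ((hψ n).le hw) α
    obtain ⟨v, v1, v2, -⟩ := exists_glue (ι := Unit) j t (fun _ => r)
      (fun _ _ => cc_of_le le_rfl le_rfl) fun _ z hz e => ht (w2 z hz e)
    have hc : Cd j α ψ v a s n x := ⟨hx, fun z hz e => v2 z (hx' hz) e,
      fun i _ => cc_of_le hx' (ht.trans (w1 (Sum.inr i))),
      fun i hi => cc_of_le hx' (ht.trans (w1 (Sum.inl ⟨i, hi⟩)))⟩
    obtain ⟨y, ⟨v', hv', hy⟩, hmin⟩ := (IsWellFounded.wf (r := WellOrderingRel)).has_min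
      {y | ∃ v ≤ r, Cd j α ψ v a s n y} ⟨x, v, v1 (), hc⟩
    have e : ∀ i < n, a i = Function.update a n y i := fun i hi =>
      (Function.update_of_ne (by omega) _ _).symm
    refine ⟨v', hv'.trans hr, Function.update a n y, fun i hi => ?_⟩
    rcases Nat.lt_succ_iff_lt_or_eq.1 hi with hi' | rfl
    · exact (h.le hv').congr e i hi'
    · rw [Function.update_self]
      exact ⟨hy.congr e fun _ _ => rfl, fun z hz t ht h' => hmin z
        ⟨t, ht.trans hv', h'.congr (fun k hk => (e k hk).symm) fun _ _ => rfl⟩ hz⟩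

theorem twoF_mon (hΨ : ∀ i < 2 * n + 1, Mn (Ψ i)) : Mn (twoF j α ψ n Ψ) :=
  fun _ _ _ _ h ⟨s, a, h1, h2, h3⟩ =>
    ⟨s, a, h1.le h, fun i hi => hΨ _ (by omega) _ _ _ _ h (h2 i hi), h3⟩

theorem twoF_good (hj : ∀ z ∈ p.s, z.1.1 ≠ j) (hΦ : ∀ i, Gd p (Φ i))
    (hψ : ∀ i, Ag p (Φ (2 * i + 1)) (ψ i)) (hq : q ≤ p) (hΨ : ∀ i < 2 * n + 1, Gd q (Ψ i)) :
    Gd q (twoF j α ψ n Ψ) := by
  refine ⟨twoF_mon fun i hi => (hΨ i hi).mono, fun β r hr => ?_, ?_⟩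
  · obtain ⟨r1, h1, s, hs⟩ := exists_dec (n := n + 1) (Φ := fun i => Ψ (2 * i)) β
      fun i hi => (hΨ _ (by omega)).le hr
    obtain ⟨r2, h2, a, h⟩ := exists_nd (α := α) hj hΦ hψ (h1.trans (hr.trans hq)) (n + 1) s
    obtain ⟨l, hl⟩ := ac_val (h n n.lt_succ_self).1.1
    exact ⟨r2, h2.trans h1, l, s, a, h,
      fun i hi => (hΨ _ (by omega)).mono _ _ _ _ h2 (hs i hi), hl⟩
  · rintro r hr β l l' ⟨s, a, h1, h2, h3⟩ ⟨s', a', g1, g2, g3⟩
    have e := h1.unique g1 (fun i hi => (hΨ (2 * i) (by omega)).func r hr β _ _ (h2 i hi)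
      (g2 i hi)) n n.lt_succ_self
    rw [← e] at g3
    obtain ⟨w, w1, w2, -⟩ := exists_glue (ι := Unit) j r (fun _ => a n)
      (fun _ _ => cc_of_le le_rfl le_rfl) fun _ => (h1 n n.lt_succ_self).1.2.1
    have hw : w ≤ p := le_of_offLe hj (hr.trans hq) w2
    exact (hΦ (2 * n + 1)).func w hw α _ _ ((hψ n w hw α l).2 (h3 w (w1 ())))
      ((hψ n w hw α l').2 (g3 w (w1 ())))

theorem twoF_agree (e : ∀ i < 2 * n + 1, Ag p (Ψ i) (Ψ' i)) :
    Ag p (twoF j α ψ n Ψ) (twoF j α ψ n Ψ') := by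
  have key : ∀ Ψ Ψ' : ℕ → Vl J, (∀ i < 2 * n + 1, Ag p (Ψ i) (Ψ' i)) →
      ∀ q ≤ p, ∀ β l, twoF j α ψ n Ψ q β l → twoF j α ψ n Ψ' q β l := by
    rintro Ψ Ψ' e q hq β l ⟨s, a, h1, h2, h3⟩
    exact ⟨s, a, h1, fun i hi => (e _ (by omega) q hq β _).1 (h2 i hi), h3⟩
  exact fun q hq β l => ⟨key _ _ e q hq β l, key _ _ (fun i hi => (e i hi).symm) q hq β l⟩

/-- every board of a play that follows the strategy of TWO is the board `α` of the given play,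
after a change of the condition on the column of `α` -/
theorem core {c : LL.{u} → J} (hj : ∀ z ∈ p.s, z.1.1 ≠ c α) (hΦ : ∀ i, Gd p (Φ i))
    (hψ : ∀ i, Lst p (Φ (2 * i + 1)) (ψ i)) (hq : q ≤ p) (hΨ : ∀ i, Gd q (Ψ i))
    (h1 : ∀ n, ∀ r ≤ p, ∀ β l, oneF c n Φ r β l → Φ (2 * n) r β l)
    (h2 : ∀ n, ∀ r ≤ q, ∀ β l, twoF (c α) α ψ n Ψ r β l → Ψ (2 * n + 1) r β l) (β : LL.{u}) :
    ∃ r ≤ q, ∃ w ≤ p, OffLe (c α) r w ∧
      ∃ b : ℕ → LL.{u}, ∀ n, Φ n w α (b n) ∧ Ψ n r β (b n) := by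
  obtain ⟨p1, hp1, hb⟩ := exists_le_forall Cond.exists_lower_of_antitone q
    (fun n r => ∃ l, Ψ n r β l) (fun n q r h ⟨l, hl⟩ => ⟨l, (hΨ n).mono _ _ _ _ h hl⟩)
    fun n => (hΨ n).total β
  choose b hb using hb
  obtain ⟨p2, hp2, hn⟩ := exists_le_forall Cond.exists_lower_of_antitone p1
    (fun n r => ∃ a, Nd (c α) α ψ r n (fun i => b (2 * i)) a)
    (fun n q r h ⟨a, hl⟩ => ⟨a, hl.le h⟩)
    fun n r hr => exists_nd hj hΦ (fun i => (hψ i).1) (hr.trans (hp1.trans hq)) n _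
  choose R hR using hn
  have hp : p2 ≤ q := hp2.trans hp1
  let a : ℕ → PP J := fun i => R (i + 1) i
  have hnode : ∀ n, Nd (c α) α ψ p2 n (fun i => b (2 * i)) a := fun n =>
    (hR n).congr fun i hi => Nd.unique (n := i + 1) (fun k hk => hR n k (by omega)) (hR (i + 1))
      (fun _ _ => rfl) i i.lt_succ_self
  have hb2 : ∀ n, Ψ n p2 β (b n) := fun n => (hΨ n).mono _ _ _ _ hp2 (hb n)
  have ht : ∀ n, ∀ r ≤ a n, ψ n r α (b (2 * n + 1)) := fun n => by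
    obtain ⟨l, hl⟩ := ac_val (hnode (n + 1) n n.lt_succ_self).1.1
    rwa [(hΨ _).func p2 hp β _ _
      (h2 n p2 hp β l ⟨_, a, hnode _, fun i _ => hb2 _, hl⟩) (hb2 _)] at hl
  obtain ⟨w, w1, w2, w3⟩ := exists_glue (ι := ℕ ⊕ ℕ) (c α) p2
    (Sum.elim a fun k => pat (c α) (blk a k) (b (2 * k)))
    (by
      rintro (i | i) (k | k)
      · exact (hnode (i + k + 1)).cc (by omega) (by omega)
      · exact (hnode (i + 1)).cc_pat i.lt_succ_self k
      · exact ((hnode (k + 1)).cc_pat k.lt_succ_self i).symm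
      · exact cc_pat_pat a (fun i => b (2 * i)) i k)
    (by
      rintro (i | i)
      · exact (hnode (i + 1) i i.lt_succ_self).1.2.1
      · exact offLe_pat _ p2 _ _)
  have hw : w ≤ p := le_of_offLe hj (hp.trans hq) w2
  refine ⟨p2, hp, w, hw, w3, b, fun n => ⟨?_, hb2 n⟩⟩
  obtain ⟨m, rfl | rfl⟩ := Nat.even_or_odd' n
  · exact h1 m w hw α _ ⟨ψ, a, fun i _ => ⟨(hψ i).le hw,
      (hnode (i + 1) i i.lt_succ_self).1.1, w1 (Sum.inl i)⟩, w1 (Sum.inr m)⟩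
  · exact ((hψ m).1 w hw α _).2 (ht m w (w1 (Sum.inl m)))

end two

end Pool.Agent.P.MP_0c777d_lc.Free
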