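import Pool.Agent.P.MP_0c777d_lc.FreeCore

set_option autoImplicit false

/-! All but continuum many columns are irrelevant for a given name of a payoff set. -/

open Pool.Agent.Lib.PosetForcing Cardinal

namespace Pool.Agent.P.MP_0c777d_lc.Free

universe u

theorem exists_closed {J : Type u} (F : Set J → Set J) (κ : Cardinal.{u}) (hκ : ℵ₁ ≤ κ)
    (hF : ∀ S : Set J, #S ≤ κ → #(F S) ≤ κ) :
    ∃ S : Set J, #S ≤ κ ∧ ∀ T ⊆ S, T.Countable → ∃ S', T ⊆ S' ∧ F S' ⊆ S := by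
  let I : Type u := (ℵ₁ : Cardinal.{u}).ord.ToType
  have hI : #I = ℵ₁ := mk_ord_toType _
  have hκ0 : ℵ₀ ≤ κ := aleph0_lt_aleph_one.le.trans hκ
  let G : I → Set J := (wellFounded_lt (α := I)).fix fun i rec => F (⋃ k : {k // k < i}, rec k.1 k.2)
  have hG : ∀ i, G i = F (⋃ k : {k // k < i}, G k.1) := fun i =>
    (wellFounded_lt (α := I)).fix_eq _ i
  have hU : ∀ {ι : Type u} (f : ι → Set J), #ι ≤ κ → (∀ i, #(f i) ≤ κ) → #(⋃ i, f i) ≤ κ :=
    fun f h1 h2 => (mk_iUnion_le f).trans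
      ((mul_le_mul' h1 (ciSup_le' h2)).trans (mul_eq_self hκ0).le)
  have hc : ∀ i, #(G i) ≤ κ := fun i => by
    induction i using WellFoundedLT.induction with
    | _ i ih =>
      rw [hG]
      exact hF _ (hU _ ((mk_subtype_le _).trans (hI ▸ hκ)) fun k => ih k.1 k.2)
  refine ⟨⋃ i, G i, hU _ (hI ▸ hκ) hc, fun T hT hT' => ?_⟩
  choose g hg using fun x : T => Set.mem_iUnion.1 (hT x.2)
  have : Countable T := hT'.to_subtype
  obtain ⟨i, hi⟩ : ∃ i : I, ∀ x, g x < i := by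
    by_contra hcon
    push Not at hcon
    have h1 : (Set.univ : Set I) ⊆ ⋃ x, Set.Iic (g x) := fun i _ => Set.mem_iUnion.2 (hcon i)
    have h2 : (⋃ x, Set.Iic (g x)).Countable := Set.countable_iUnion fun x => by
      rw [← Set.Iio_union_right]
      refine Set.Countable.union ?_ (Set.countable_singleton _)
      rw [← le_aleph0_iff_set_countable, ← Order.lt_succ_iff, succ_aleph0]
      exact (mk_Iio_lt (g x) (by simp [I])).trans_eq hI
    have h3 := le_aleph0_iff_set_countable.2 (h2.mono h1)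
    rw [mk_univ, hI] at h3
    exact absurd h3 (not_le.2 aleph0_lt_aleph_one)
  refine ⟨⋃ k : {k // k < i}, G k.1, fun x hx =>
    Set.mem_iUnion.2 ⟨⟨g ⟨x, hx⟩, hi _⟩, hg ⟨x, hx⟩⟩, ?_⟩
  rw [← hG]
  exact Set.subset_iUnion G i

theorem mk_LL : #LL.{u} = 𝔠 := by simp

theorem exists_irr {J : Type u} (hJ : 𝔠 < #J) (R N : (ℕ → LL.{u}) → PP J → Prop)
    (hR : ∀ a q r, r ≤ q → R a q → R a r) (hN : ∀ a q r, r ≤ q → N a q → N a r)
    (hd : ∀ a r, R a r → N a r → False) (he : ∀ a p, ∃ q ≤ p, R a q ∨ N a q) :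
    ∃ c : LL.{u} → J, Function.Injective c ∧
      ∀ α a r w, R a r → N a w → OffLe (c α) r w → False := by
  choose dec hdec hdec' using he
  let sp : PP J → Set J := fun p => (fun z : (J × LL.{u} × ℕ) × Bool => z.1.1) '' p.s
  have hsp : ∀ p, (sp p).Countable := fun p => p.cnt.image _
  obtain ⟨S, hS, hcl⟩ := exists_closed
    (fun S : Set J => ⋃ x : {p : PP J // sp p ⊆ S} × (ℕ → LL.{u}), sp (dec x.2 x.1.1)) 𝔠
    aleph_one_le_continuum (fun S hS => by
      have h1 : #{z : (J × LL.{u} × ℕ) × Bool | z.1.1 ∈ S} ≤ 𝔠 := by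
        refine (mk_le_of_injective (β := (S × LL.{u} × ℕ) × Bool)
          (f := fun z => ((⟨z.1.1.1, z.2⟩, z.1.1.2), z.1.2)) ?_).trans ?_
        · rintro ⟨⟨⟨a, b⟩, c⟩, h⟩ ⟨⟨⟨a', b'⟩, c'⟩, h'⟩ e
          simp only [Prod.mk.injEq, Subtype.mk.injEq] at e ⊢
          exact e
        · simp only [mk_prod, lift_id, mk_LL, mk_nat, lift_aleph0, mk_bool, lift_ofNat,
            lift_uzero, continuum_mul_aleph0]
          calc #S * 𝔠 * 2 ≤ 𝔠 * 𝔠 * 𝔠 :=
                mul_le_mul' (mul_le_mul' hS le_rfl) (nat_lt_continuum 2).le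
            _ = 𝔠 := by simp
      have h2 : #{p : PP J // sp p ⊆ S} ≤ 𝔠 := by
        refine (mk_le_of_injective (β := {t : Set ((J × LL.{u} × ℕ) × Bool) //
            t ⊆ {z | z.1.1 ∈ S} ∧ #t ≤ ℵ₀})
          (f := fun p => ⟨p.1.s, fun z hz => p.2 ⟨z, hz, rfl⟩,
            le_aleph0_iff_set_countable.2 p.1.cnt⟩) ?_).trans ?_
        · rintro ⟨⟨s, _, _⟩, _⟩ ⟨⟨s', _, _⟩, _⟩ e
          simp only [Subtype.mk.injEq] at e
          subst e
          rfl
        · refine (mk_bounded_subset_le _ _).trans ?_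
          calc max #{z : (J × LL.{u} × ℕ) × Bool | z.1.1 ∈ S} ℵ₀ ^ ℵ₀ ≤ 𝔠 ^ ℵ₀ :=
                power_le_power_right (max_le h1 aleph0_le_continuum)
            _ = 𝔠 := continuum_power_aleph0
      refine (mk_iUnion_le _).trans ?_
      have h3 : #({p : PP J // sp p ⊆ S} × (ℕ → LL.{u})) ≤ 𝔠 := by
        rw [mk_prod, lift_id, lift_id]
        have : #(ℕ → LL.{u}) = 𝔠 := by simp
        rw [this]
        exact (mul_le_mul' h2 le_rfl).trans continuum_mul_self.le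
      exact (mul_le_mul' h3 (ciSup_le' fun x => (le_aleph0_iff_set_countable.2 (hsp _)).trans
        aleph0_le_continuum)).trans continuum_mul_self.le)
  have : Infinite J := infinite_iff.2 (aleph0_le_continuum.trans hJ.le)
  have h4 : #LL.{u} ≤ #(Sᶜ : Set J) := by
    rw [mk_compl_of_infinite S (hS.trans_lt hJ), mk_LL]
    exact hJ.le
  obtain ⟨c⟩ := (le_def _ _).1 h4
  refine ⟨fun α => (c α).1, fun α β h => c.injective (Subtype.ext h), fun α a r w h1 h2 h3 => ?_⟩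
  let p0 : PP J := ⟨{z ∈ r.s | z.1.1 ∈ S}, r.cnt.mono fun _ h => h.1,
    fun x b b' h h' => r.fn x b b' h.1 h'.1⟩
  obtain ⟨S', g1, g2⟩ := hcl (sp p0) (by rintro _ ⟨z, hz, rfl⟩; exact hz.2) (hsp _)
  have g3 : sp (dec a p0) ⊆ S := (Set.subset_iUnion
    (fun x : {p : PP J // sp p ⊆ S'} × (ℕ → LL.{u}) => sp (dec x.2 x.1.1)) (⟨p0, g1⟩, a)).trans g2
  rcases hdec' a p0 with h | h
  · obtain ⟨t, t1, t2⟩ := Cond.Compat.exists_le (p := dec a p0) (q := w) fun x b b' k1 k2 => by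
      have k3 : x.1 ∈ S := g3 ⟨_, k1, rfl⟩
      exact (dec a p0).fn x b b' k1
        (hdec a p0 ⟨h3 _ k2 fun e => (c α).2 ((show x.1 = (c α).1 from e) ▸ k3), k3⟩)
    exact hd a t (hR a _ _ t1 h) (hN a _ _ t2 h2)
  · obtain ⟨t, t1, t2⟩ := Cond.Compat.exists_le (p := dec a p0) (q := r) fun x b b' k1 k2 =>
      (dec a p0).fn x b b' k1 (hdec a p0 ⟨k2, g3 ⟨_, k1, rfl⟩⟩)
    exact hd a t (hR a _ _ t2 h1) (hN a _ _ t1 h)

end Pool.Agent.P.MP_0c777d_lc.Free
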