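import Pool.Agent.P.MP_0c777d_lc.FreeIrr

set_option autoImplicit false

/-! After adding more than continuum many subsets of `ω₁`, the statement `D(L, L)` holds for the
set `L` of ground model reals. -/

open Pool.Agent.Lib.PosetForcing Cardinal

namespace Pool.Agent.P.MP_0c777d_lc.Free

universe u

variable {J : Type u}

/-- the values of a name -/
def vl (F : Name (PP J)) : Vl J := fun p α l =>
  Forces p fun U => App Mod.mem (F.val U) ((elt α).val U) ((elt l).val U)

/-- the nice name with prescribed values -/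
noncomputable def nn (φ : Vl J) : Name (PP J) :=
  graphName (ι := {x : PP J × LL.{u} × LL.{u} // φ x.1 x.2.1 x.2.2})
    (fun x => elt x.1.2.1) (fun x => elt x.1.2.2) fun x => x.1.1

/-- being a move -/
abbrev Mv (U : Gen (PP J)) (g : Mod U) : Prop :=
  IsFun Mod.mem g ((tyName LL.{u}).val U) ((tyName LL.{u}).val U)

theorem vl_mon (F : Name (PP J)) : Mn (vl F) := fun _ _ _ _ h h' => Forces.mono h' h

theorem vl_good {p : PP J} {F : Name (PP J)} (h : Forces p fun U => Mv U (F.val U)) :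
    Gd p (vl F) := by
  refine ⟨vl_mon F, fun α q hq => ?_, fun q hq α l l' h1 h2 => ?_⟩
  · obtain ⟨y, hy⟩ := exists_app_name F (elt α)
    have h1 : Forces q fun U => App Mod.mem (F.val U) ((elt α).val U) (y.val U) :=
      (h.mono hq).imp fun U h => hy U (h.2.1 _ (elt_mem_tyName α U))
    have h2 : Forces q fun U => Mod.mem (y.val U) ((tyName LL.{u}).val U) :=
      ((h.mono hq).and h1).imp fun U h => ((isZFC U).app_val h.1 h.2).2
    obtain ⟨r, hr, l, hl⟩ := h2.exists_fam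
    exact ⟨r, hr, l, ((h1.mono hr).and hl).imp fun U h => h.2 ▸ h.1⟩
  · exact Forces.elt_inj (((h.mono hq).and (Forces.and h1 h2)).imp
      fun U h => h.1.2.2 _ _ _ h.2.1 h.2.2)

theorem vl_nn {φ : Vl J} {p : PP J} {α l : LL.{u}} (h : φ p α l) : vl (nn φ) p α l :=
  forces_app_graph (ι := {x : PP J × LL.{u} × LL.{u} // φ x.1 x.2.1 x.2.2}) ⟨(p, α, l), h⟩ le_rfl

theorem nn_mv {φ : Vl J} {p : PP J} (h : Gd p φ) : Forces p fun U => Mv U ((nn φ).val U) := by
  refine forces_isFunOn_graph (V := fun U y => Mod.mem y ((tyName LL.{u}).val U))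
    (fun i q _ _ => ⟨q, le_rfl,
      Forces.of_forall (fun U => ⟨elt_mem_tyName _ U, elt_mem_tyName _ U⟩) q⟩)
    (fun α q hq _ => ?_) fun i j q hq hi hj e => ⟨q, le_rfl, Forces.of_forall (fun _ => ?_) q⟩
  · obtain ⟨r, hr, l, hl⟩ := h.total α q hq
    exact ⟨r, hr, ⟨(r, α, l), hl⟩, le_rfl, Forces.of_forall (fun _ => rfl) r⟩
  · have h1 := h.mono _ _ _ _ hi i.2
    rw [e.elt_inj] at h1
    rw [h.func q hq _ _ _ h1 (h.mono _ _ _ _ hj j.2)]

theorem nn_agree {φ ψ : Vl J} {p : PP J} (hφ : Mn φ) (hψ : Mn ψ) (e : Ag p φ ψ) :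
    Forces p fun U => (nn φ).val U = (nn ψ).val U := by
  have key : ∀ φ ψ : Vl J, Mn φ → Ag p φ ψ →
      Forces p fun U => ∀ x, Mod.mem x ((nn φ).val U) → Mod.mem x ((nn ψ).val U) :=
    fun φ ψ hφ e => forces_forall_mem (b := nn φ) fun i q hq hi => ⟨q, le_rfl,
      forces_el_mem (b := nn ψ) ⟨(q, i.1.2), (e q hq _ _).1 (hφ _ _ _ _ hi i.2)⟩ le_rfl⟩
  exact ((key φ ψ hφ e).and (key ψ φ hψ e.symm)).imp fun U h =>
    Mod.ext _ _ fun z => ⟨h.1 z, h.2 z⟩

theorem vl_agree {F G : Name (PP J)} {p : PP J} (e : Forces p fun U => F.val U = G.val U) :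
    Ag p (vl F) (vl G) := fun _ hq _ _ =>
  ⟨fun h => (Forces.and h (e.mono hq)).imp fun _ h => h.2 ▸ h.1,
    fun h => (Forces.and h (e.mono hq)).imp fun _ h => h.2 ▸ h.1⟩

theorem eq_nn_vl {F : Name (PP J)} {p : PP J} (h : Forces p fun U => Mv U (F.val U)) :
    Forces p fun U => (nn (vl F)).val U = F.val U := by
  have h1 : Forces p fun U => ∀ x y, App Mod.mem ((nn (vl F)).val U) x y →
      App Mod.mem (F.val U) x y :=
    forces_forall_app_graph (Φ := fun U x y => App Mod.mem (F.val U) x y)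
      fun i q _ hi => ⟨q, le_rfl, Forces.mono i.2 hi⟩
  exact ((h.and (nn_mv (vl_good h))).and h1).imp fun U h =>
    (isZFC U).fun_ext h.1.2 h.1.1 fun x _ => h.2 x

/-- the name of a strategy -/
noncomputable def strN (len : ℕ → ℕ) (G : ℕ → (ℕ → Vl J) → Vl J) : Name (PP J) :=
  funName (ι := ULift.{u} ℕ × (ℕ → Vl J)) (fun x => seqName (len x.1.down) fun i => nn (x.2 i))
    fun x => nn (G x.1.down fun i => vl (nn (x.2 i)))

section strat
variable {len : ℕ → ℕ} {G : ℕ → (ℕ → Vl J) → Vl J} {p : PP J}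
  {T : ∀ U : Gen (PP J), Mod U → Prop} [∀ a : Name (PP J), Clopen fun U => T U (a.val U)]

theorem str_func (hlen : Function.Injective len) (hmon : ∀ n Φ, (∀ i, Mn (Φ i)) → Mn (G n Φ))
    (hagree : ∀ n p Φ Φ', (∀ i < len n, Ag p (Φ i) (Φ' i)) → Ag p (G n Φ) (G n Φ')) (p : PP J) :
    Forces p fun U => ∀ h g g', App Mod.mem ((strN len G).val U) h g →
      App Mod.mem ((strN len G).val U) h g' → g = g' := by
  refine forces_graph_functional fun i j q _ _ _ e => ⟨q, le_rfl, ?_⟩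
  obtain ⟨⟨n⟩, Φ⟩ := i
  obtain ⟨⟨m⟩, Ψ⟩ := j
  obtain ⟨U, hU⟩ := e.exists
  obtain rfl : n = m := hlen (seqName_inj hU).1
  exact nn_agree (hmon _ _ fun _ => vl_mon _) (hmon _ _ fun _ => vl_mon _) (hagree n q _ _
    fun i hi => vl_agree (e.imp fun U h => (seqName_inj h).2 i hi))

theorem str_app (n : ℕ) (F : ℕ → Name (PP J))
    (hF : ∀ i < len n, Forces p fun U => Mv U ((F i).val U)) :
    Forces p fun U => ∀ h, IsPos Mod.mem h ((natName (len n)).val U) ((tyName LL.{u}).val U)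
      ((tyName LL.{u}).val U) →
      (∀ i < len n, App Mod.mem h ((natName i).val U) ((F i).val U)) →
      App Mod.mem ((strN len G).val U) h
        ((nn (G n fun i => vl (nn (vl (F i))))).val U) := by
  intro U hU h h1 h2
  rw [eq_seqName (Y := fun i => nn (vl (F i))) h1 fun i hi => by
    rw [eq_nn_vl (hF i hi) U hU]; exact h2 i hi]
  exact app_funName (ι := ULift.{u} ℕ × (ℕ → Vl J))
    (fun x => seqName (len x.1.down) fun i => nn (x.2 i))
    (fun x => nn (G x.1.down fun i => vl (nn (x.2 i)))) (⟨n⟩, fun i => vl (F i)) U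

theorem str_isStrat (hlen : Function.Injective len) (hmon : ∀ n Φ, (∀ i, Mn (Φ i)) → Mn (G n Φ))
    (hagree : ∀ n p Φ Φ', (∀ i < len n, Ag p (Φ i) (Φ' i)) → Ag p (G n Φ) (G n Φ'))
    (hgood : ∀ n, ∀ q ≤ p, ∀ Φ, (∀ i < len n, Gd q (Φ i)) → Gd q (G n Φ))
    (hT : ∀ m U, T U ((natName m).val U) → ∃ n, m = len n) :
    Forces p fun U => IsStrat Mod.mem ((strN len G).val U) (omegaName.val U)
      ((tyName LL.{u}).val U) ((tyName LL.{u}).val U) (T U) := by
  refine (str_func hlen hmon hagree p).and ?_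
  refine (forces_forall_mem_omega (Φ := (fun (U : Gen (PP J)) (n : Mod U) => ∀ h, T U n →
    IsPos Mod.mem h n ((tyName LL.{u}).val U) ((tyName LL.{u}).val U) →
    ∃ g, App Mod.mem ((strN len G).val U) h g ∧ Mv U g :)) fun m q hq => ⟨q, le_rfl, ?_⟩).imp
    fun U h n x hn => h n hn x
  refine forces_forall fun h => forces_imp fun r hr h1 => ⟨r, le_rfl,
    forces_imp fun s hs h2 => ⟨s, le_rfl, ?_⟩⟩
  obtain ⟨U, hU⟩ := h1.exists
  obtain ⟨n, rfl⟩ := hT m U hU
  choose F hF using fun i => exists_app_name h (natName i)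
  have h3 : ∀ i < len n, Forces s fun U => App Mod.mem (h.val U) ((natName i).val U) ((F i).val U) :=
    fun i hi => h2.imp fun U h => hF i U (h.2.1 _ (natName_mem hi U))
  have h4 : ∀ i < len n, Forces s fun U => Mv U ((F i).val U) := fun i hi =>
    (h2.and (h3 i hi)).imp fun U h => ((isZFC U).app_val h.1 h.2).2
  have h5 := nn_mv (hgood n s (hs.trans (hr.trans hq)) (fun i => vl (nn (vl (F i))))
    fun i hi => vl_good (nn_mv (vl_good (h4 i hi))))
  intro U hU
  exact ⟨_, str_app n F h4 U hU _ (h2 U hU) fun i hi => h3 i hi U hU, h5 U hU⟩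

omit [∀ a : Name (PP J), Clopen fun U => T U (a.val U)] in
theorem str_follows (hlen : Function.Injective len) (hmon : ∀ n Φ, (∀ i, Mn (Φ i)) → Mn (G n Φ))
    (hagree : ∀ n p Φ Φ', (∀ i < len n, Ag p (Φ i) (Φ' i)) → Ag p (G n Φ) (G n Φ'))
    (hT : ∀ n U, T U ((natName (len n)).val U)) {f : Name (PP J)} {F : ℕ → Name (PP J)}
    (hf : Forces p fun U => IsPos Mod.mem (f.val U) (omegaName.val U) ((tyName LL.{u}).val U)
      ((tyName LL.{u}).val U))
    (hs : Forces p fun U => Follows Mod.mem (f.val U) ((strN len G).val U) (omegaName.val U)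
      (T U))
    (hF : ∀ i, Forces p fun U => App Mod.mem (f.val U) ((natName i).val U) ((F i).val U)) (n : ℕ) :
    ∀ q ≤ p, ∀ α l, G n (fun i => vl (F i)) q α l → vl (F (len n)) q α l := by
  have h4 : ∀ i, Forces p fun U => Mv U ((F i).val U) := fun i =>
    (hf.and (hF i)).imp fun U h => ((isZFC U).app_val h.1 h.2).2
  have h5 : Forces p fun U => (nn (G n fun i => vl (nn (vl (F i))))).val U =
      (F (len n)).val U := by
    intro U hU
    obtain ⟨h, hh⟩ : ∃ h, IsRestr Mod.mem h (f.val U) ((natName (len n)).val U) :=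
      Mod.sep (fun U z => ∃ x y, IsPair Mod.mem z x y ∧ Mod.mem x ((natName (len n)).val U)) U _
    refine str_func hlen hmon hagree p U hU h _ _ ?_
      (hs U hU _ h _ (natName_mem_omega _ U) (hT n U) hh (hF _ U hU))
    refine str_app n F (fun i _ => h4 i) U hU h ((isZFC U).isFunOn_restr hh (hf U hU) ?_)
      fun i hi => ((isZFC U).app_restr hh).2 ⟨hF i U hU, natName_mem hi U⟩
    intro x hx
    obtain ⟨i, -, rfl⟩ := (mem_natName U x).1 hx
    exact natName_mem_omega i U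
  intro q hq α l h
  refine (vl_agree h5 q hq α l).1 (vl_nn ?_)
  exact (hagree n p _ _ (fun i _ => vl_agree (eq_nn_vl (h4 i))) q hq α l).2 h

end strat

/-- the name of a ground model sequence of moves -/
noncomputable def sq (b : ℕ → LL.{u}) : Name (PP J) :=
  funName (fun n : ULift.{u} ℕ => natName n.down) fun n => elt (b n.down)

theorem app_sq (b : ℕ → LL.{u}) (n : ℕ) (U : Gen (PP J)) :
    App Mod.mem ((sq b).val U) ((natName n).val U) ((elt (b n)).val U) :=
  app_funName (fun n : ULift.{u} ℕ => natName n.down) (fun n => elt (b n.down)) ⟨n⟩ U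

theorem isFunOn_sq (b : ℕ → LL.{u}) (U : Gen (PP J)) :
    IsFunOn Mod.mem ((sq b).val U) (omegaName.val U) fun _ => True := by
  refine of_forces_all (Φ := fun U : Gen (PP J) => IsFunOn Mod.mem ((sq b).val U)
    (omegaName.val U) fun _ => True) (fun p => ⟨p, le_rfl, ?_⟩) U
  refine forces_isFunOn_graph (V := fun _ _ => True) (fun i q _ _ => ⟨q, le_rfl,
    Forces.of_forall (fun U => ⟨natName_mem_omega _ U, trivial⟩) q⟩)
    (fun j q _ _ => ⟨q, le_rfl, j, le_top, Forces.of_forall (fun _ => rfl) q⟩)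
    fun i j q _ _ _ h => ⟨q, le_rfl, Forces.of_forall (fun _ => ?_) q⟩
  rw [h.natName_inj]

theorem det_self (hJ : 𝔠 < #J) (U : Gen (PP J)) :
    Det Mod.mem (omegaName.val U) (evName.val U) ((tyName LL.{u}).val U)
      ((tyName LL.{u}).val U) := by
  refine of_forces_all (Φ := fun U : Gen (PP J) => Det Mod.mem (omegaName.val U) (evName.val U)
    ((tyName LL.{u}).val U) ((tyName LL.{u}).val U)) (fun p => ⟨p, le_rfl, ?_⟩) U
  refine forces_forall fun A => forces_imp fun q _ hA => ?_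
  obtain ⟨c, hc1, hc2⟩ := exists_irr hJ
    (fun b r => Forces r fun U => Mod.mem ((sq b).val U) (A.val U))
    (fun b r => Forces r fun U => ¬ Mod.mem ((sq b).val U) (A.val U))
    (fun _ _ _ h h' => h'.mono h) (fun _ _ _ h h' => h'.mono h)
    (fun _ _ h h' => Forces.not_false ((h.and h').imp fun _ h => h.2 h.1))
    (fun b r => by
      by_cases h : Forces r fun U => Mod.mem ((sq b).val U) (A.val U)
      · exact ⟨r, le_rfl, Or.inl h⟩
      · obtain ⟨t, ht, h⟩ := exists_forces_not h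
        exact ⟨t, ht, Or.inr h⟩)
  have hl1 : Function.Injective fun n : ℕ => 2 * n := fun a b h => by simpa using h
  have hl2 : Function.Injective fun n : ℕ => 2 * n + 1 := fun a b h => by simpa using h
  have hm1 : ∀ n (Φ : ℕ → Vl J), (∀ i, Mn (Φ i)) → Mn (oneF c n Φ) := fun n Φ _ => oneF_mon c n Φ
  have ha1 : ∀ n p (Φ Φ' : ℕ → Vl J),
      (∀ i < 2 * n, Ag p (Φ i) (Φ' i)) → Ag p (oneF c n Φ) (oneF c n Φ') :=
    fun n p Φ Φ' => oneF_agree c
  by_cases hc : Forces q fun U => ∀ f, IsPos Mod.mem f (omegaName.val U) ((tyName LL.{u}).val U)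
      ((tyName LL.{u}).val U) → Follows Mod.mem f ((strN (fun n => 2 * n) (oneF c)).val U)
      (omegaName.val U) (fun n => Mod.mem n (evName.val U)) →
      OneWins Mod.mem f (A.val U) (omegaName.val U) ((tyName LL.{u}).val U)
  · refine ⟨q, le_rfl, ((str_isStrat (T := fun U n => Mod.mem n (evName.val U)) hl1 hm1 ha1
      (fun n q _ Φ => oneF_good c) fun m U h => (natName_mem_ev m U).1 h).and hc).imp
      fun U h => Or.inl ⟨_, h⟩⟩
  obtain ⟨r0, hr0, hc⟩ := exists_forces_not hc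
  obtain ⟨f, hf⟩ := Forces.exists_name (Φ := fun U f => IsPos Mod.mem f (omegaName.val U)
      ((tyName LL.{u}).val U) ((tyName LL.{u}).val U) ∧
      Follows Mod.mem f ((strN (fun n => 2 * n) (oneF c)).val U)
      (omegaName.val U) (fun n => Mod.mem n (evName.val U)) ∧
      ¬ OneWins Mod.mem f (A.val U) (omegaName.val U) ((tyName LL.{u}).val U))
    (hc.imp fun U h => by simpa only [not_forall, exists_prop] using h)
  choose F hF using fun i => exists_app_name f (natName i)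
  obtain ⟨r, hr, hψ⟩ := exists_le_forall Cond.exists_lower_of_antitone r0
    (fun n t => ∃ ψ, Lst t (vl (F (2 * n + 1))) ψ) (fun n t t' h ⟨ψ, hψ⟩ => ⟨ψ, hψ.le h⟩)
    fun n t _ => exists_lst t _
  choose ψ hψ using hψ
  replace hf := hf.mono hr
  obtain ⟨α, hα⟩ : ∃ α, ∀ z ∈ r.s, z.1.1 ≠ c α := by
    by_contra hcon
    push Not at hcon
    have h1 : (Set.univ : Set LL.{u}) ⊆
        c ⁻¹' ((fun z : (J × LL.{u} × ℕ) × Bool => z.1.1) '' r.s) := fun α _ => hcon α
    exact Set.not_countable_univ (((r.cnt.image _).preimage_of_injOn hc1.injOn).mono h1)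
  have hf1 := hf.imp fun _ h => h.1
  have hF1 : ∀ i, Forces r fun U => App Mod.mem (f.val U) ((natName i).val U) ((F i).val U) :=
    fun i => hf1.imp fun U h => hF i U (h.2.1 _ (natName_mem_omega i U))
  have hF2 : ∀ i, Gd r (vl (F i)) := fun i =>
    vl_good ((hf1.and (hF1 i)).imp fun U h => ((isZFC U).app_val h.1 h.2).2)
  have hF3 := str_follows (T := fun U n => Mod.mem n (evName.val U)) hl1 hm1 ha1
    (fun n U => (natName_mem_ev _ U).2 ⟨n, rfl⟩) hf1 (hf.imp fun _ h => h.2.1) hF1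
  have hm2 : ∀ n (Ψ : ℕ → Vl J), (∀ i, Mn (Ψ i)) → Mn (twoF (c α) α ψ n Ψ) :=
    fun n Ψ h => twoF_mon fun i _ => h i
  have ha2 : ∀ n p (Ψ Ψ' : ℕ → Vl J), (∀ i < 2 * n + 1, Ag p (Ψ i) (Ψ' i)) →
      Ag p (twoF (c α) α ψ n Ψ) (twoF (c α) α ψ n Ψ') := fun n p Φ Φ' => twoF_agree
  refine ⟨r, hr.trans hr0, (Forces.and (str_isStrat (T := fun U n => ¬ Mod.mem n (evName.val U))
    hl2 hm2 ha2 (fun n q hq Ψ => twoF_good hα hF2 (fun i => (hψ i).1) hq) fun m U h => ?_) ?_).imp
      fun U h => Or.inr ⟨_, h⟩⟩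
  · obtain ⟨n, rfl | rfl⟩ := Nat.even_or_odd' m
    · exact absurd ((natName_mem_ev _ U).2 ⟨n, rfl⟩) h
    · exact ⟨n, rfl⟩
  refine forces_forall fun g => forces_imp fun s hs hg1 => ⟨s, le_rfl,
    forces_imp fun s' hs' hg2 => ⟨s', le_rfl, forces_not_iff.2 fun s2 hs2 hg3 => ?_⟩⟩
  obtain ⟨b, hb⟩ := Forces.exists_name hg3
  obtain ⟨s3, hs3, β, hβ⟩ := (hb.imp fun _ h => h.1).exists_fam
  obtain ⟨a', ha'⟩ := Forces.exists_name (hb.imp fun _ h => h.2)
  have e1 : s3 ≤ s := hs3.trans (hs2.trans hs')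
  have e2 : s3 ≤ r := e1.trans hs
  replace hg1 := hg1.mono e1
  choose H hH using fun i => exists_app_name g (natName i)
  have hH1 : ∀ i, Forces s3 fun U => App Mod.mem (g.val U) ((natName i).val U) ((H i).val U) :=
    fun i => hg1.imp fun U h => hH i U (h.2.1 _ (natName_mem_omega i U))
  have hH2 : ∀ i, Forces s3 fun U => Mv U ((H i).val U) := fun i =>
    (hg1.and (hH1 i)).imp fun U h => ((isZFC U).app_val h.1 h.2).2
  have hH3 := str_follows (T := fun U n => ¬ Mod.mem n (evName.val U)) hl2 hm2 ha2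
    (fun n U h => by
      obtain ⟨m, hm⟩ := (natName_mem_ev _ U).1 h
      omega) hg1 (hg2.mono (hs3.trans hs2)) hH1
  obtain ⟨s4, hs4, w, hw, hoff, a, ha⟩ := core hα hF2 hψ e2 (fun i => vl_good (hH2 i)) hF3 hH3 β
  refine hc2 α a s4 w ?_ ?_ hoff
  · have k0 : Forces s4 fun U => ∀ n, Mod.mem n (omegaName.val U) →
        ∀ y, App Mod.mem (a'.val U) n y → App Mod.mem ((sq a).val U) n y := by
      refine forces_forall_mem_omega fun n s5 hs5 => ⟨s5, le_rfl, Forces.mono ?_ hs5⟩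
      intro U hU y hy
      obtain ⟨y', k2, k3⟩ := (ha'.mono (hs4.trans hs3) U hU).2 _ _ (natName_mem_omega n U)
        ((hH1 n).mono hs4 U hU)
      rw [hβ.mono hs4 U hU] at k2
      rw [((hH2 n).mono hs4 U hU).2.2 _ _ _ k2 ((ha n).2 U hU)] at k3
      rw [(hA.mono (hs4.trans (e2.trans (hr.trans hr0))) U hU _
        (ha'.mono (hs4.trans hs3) U hU).1).2.2 _ _ _ hy k3]
      exact app_sq a n U
    intro U hU
    have k1 := (ha'.mono (hs4.trans hs3) U hU).1
    rwa [(isZFC U).fun_ext (hA.mono (hs4.trans (e2.trans (hr.trans hr0))) U hU _ k1)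
      (isFunOn_sq a U) (k0 U hU)] at k1
  · have hwin : Forces w fun U => ∀ n, Mod.mem n (omegaName.val U) →
        ∀ g0, App Mod.mem (f.val U) n g0 →
          ∃ y, App Mod.mem g0 ((elt α).val U) y ∧ App Mod.mem ((sq a).val U) n y := by
      refine forces_forall_mem_omega fun n s5 hs5 => ⟨s5, le_rfl, Forces.mono ?_ hs5⟩
      intro U hU g0 hg0
      have k1 := (hf1.mono hw U hU).2.2 _ _ _ hg0 ((hF1 n).mono hw U hU)
      exact ⟨_, k1 ▸ (ha n).1 U hU, app_sq a n U⟩
    exact fun U hU k => (hf.mono hw U hU).2.2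
      ⟨_, elt_mem_tyName α U, _, k, fun n g0 hn => hwin U hU n hn g0⟩

end Pool.Agent.P.MP_0c777d_lc.Free
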