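import Pool.Agent.Lib.PosetForcing.Tools
import Pool.Agent.P.MP_0c777d_lc.Core
import Pool.Agent.P.MP_0c777d_lc.Defs

set_option autoImplicit false

open Pool.Agent.Lib.PosetForcing Filter

namespace Pool.Agent.P.MP_0c777d_lc

universe u

section inst
variable {P : Type u} [Preorder P]

instance clopen_isPos (h n K L : Name P) :
    Clopen fun U : Gen P => IsPos Mod.mem (h.val U) (n.val U) (K.val U) (L.val U) := by
  unfold IsPos; infer_instance

instance clopen_isStrat (s w K L : Name P) (T : ∀ U : Gen P, Mod U → Prop)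
    [∀ a : Name P, Clopen fun U => T U (a.val U)] :
    Clopen fun U : Gen P => IsStrat Mod.mem (s.val U) (w.val U) (K.val U) (L.val U) (T U) := by
  unfold IsStrat; infer_instance

instance clopen_follows (f s w : Name P) (T : ∀ U : Gen P, Mod U → Prop)
    [∀ a : Name P, Clopen fun U => T U (a.val U)] :
    Clopen fun U : Gen P => Follows Mod.mem (f.val U) (s.val U) (w.val U) (T U) := by
  unfold Follows; infer_instance

instance clopen_oneWins (f A w K : Name P) :
    Clopen fun U : Gen P => OneWins Mod.mem (f.val U) (A.val U) (w.val U) (K.val U) := by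
  unfold OneWins; infer_instance

instance clopen_det (w E L K : Name P) :
    Clopen fun U : Gen P => Det Mod.mem (w.val U) (E.val U) (L.val U) (K.val U) := by
  unfold Det; infer_instance

variable [OrderTop P]

/-- the name of the set of even numbers -/
def evName : Name P := fam fun n : ULift.{u} ℕ => natName (2 * n.down)

theorem natName_mem_ev (m : ℕ) (U : Gen P) :
    Mod.mem ((natName m).val U) (evName.val U) ↔ ∃ n, m = 2 * n := by
  constructor
  · intro h
    exact forall_mem_fam (Φ := fun U x => x = (natName m).val U → ∃ n, m = 2 * n)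
      (fun i U h => ⟨i.down, (natName_inj h).symm⟩) U _ h rfl
  · rintro ⟨n, rfl⟩
    exact mem_fam (fun n : ULift.{u} ℕ => natName (2 * n.down)) ⟨n⟩ U

theorem isEvens_ev (U : Gen P) : IsEvens Mod.mem (evName.val U) (omegaName.val U) := by
  refine ⟨forall_mem_fam (Φ := fun U x => Mod.mem x (omegaName.val U))
    (fun i U => natName_mem_omega _ U) U, fun e he => ?_, fun x y hx => ?_⟩
  · have : e = (natName 0).val U := Mod.ext _ _ fun z => by simp [mem_natName, he]
    rw [this, natName_mem_ev]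
    exact ⟨0, rfl⟩
  · revert y
    refine forall_mem_omega (Φ := fun U x => ∀ y, IsSucc Mod.mem y x →
      (Mod.mem y (evName.val U) ↔ ¬ Mod.mem x (evName.val U))) (fun n U y hy => ?_) U x hx
    have : y = (natName (n + 1)).val U :=
      Mod.ext _ _ fun z => (hy z).trans (natName_succ n U z).symm
    rw [this, natName_mem_ev, natName_mem_ev]
    constructor
    · rintro ⟨a, ha⟩ ⟨b, hb⟩
      omega
    · intro h
      obtain ⟨m, rfl | rfl⟩ := Nat.even_or_odd' n
      · exact absurd ⟨m, rfl⟩ h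
      · exact ⟨m + 1, by ring⟩

/-- the name of a finite sequence -/
def seqName (n : ℕ) (Y : ℕ → Name P) : Name P :=
  funName (fun i : ULift.{u} (Fin n) => natName i.down.val) fun i => Y i.down.val

theorem app_seqName {n i : ℕ} (Y : ℕ → Name P) (h : i < n) (U : Gen P) :
    App Mod.mem ((seqName n Y).val U) ((natName i).val U) ((Y i).val U) :=
  app_funName (fun i : ULift.{u} (Fin n) => natName i.down.val) (fun i => Y i.down.val) ⟨⟨i, h⟩⟩ U

theorem isFunOn_seqName (n : ℕ) (Y : ℕ → Name P) (U : Gen P) :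
    IsFunOn Mod.mem ((seqName n Y).val U) ((natName n).val U) fun _ => True := by
  refine of_forces_all (Φ := fun U => IsFunOn Mod.mem ((seqName n Y).val U) ((natName n).val U)
    fun _ => True) (fun p => ⟨p, le_rfl, ?_⟩) U
  rw [natName.eq_1 n]
  refine forces_isFunOn_graph (V := fun _ _ => True) (fun i q _ _ => ⟨q, le_rfl,
    Forces.of_forall (fun U => ⟨mem_fam (fun i : ULift.{u} (Fin n) => natName i.down.val) i U,
      trivial⟩) q⟩)
    (fun j q _ _ => ⟨q, le_rfl, j, le_top, Forces.of_forall (fun _ => rfl) q⟩)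
    fun i j q _ _ _ h => ⟨q, le_rfl, Forces.of_forall (fun _ => ?_) q⟩
  rw [h.natName_inj]

theorem eq_seqName {n : ℕ} {Y : ℕ → Name P} {U : Gen P} {h : Mod U} {V : Mod U → Prop}
    (hh : IsFunOn Mod.mem h ((natName n).val U) V)
    (e : ∀ i < n, App Mod.mem h ((natName i).val U) ((Y i).val U)) : h = (seqName n Y).val U := by
  refine (isZFC U).fun_ext hh (isFunOn_seqName n Y U) fun x hx y hy => ?_
  obtain ⟨i, hi, rfl⟩ := (mem_natName U x).1 hx
  rw [hh.2.2 _ _ _ hy (e i hi)]
  exact app_seqName Y hi U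

theorem seqName_inj {n m : ℕ} {Y Z : ℕ → Name P} {U : Gen P}
    (h : (seqName n Y).val U = (seqName m Z).val U) :
    n = m ∧ ∀ i < n, (Y i).val U = (Z i).val U := by
  have key : ∀ {n m : ℕ} {Y Z : ℕ → Name P}, (seqName n Y).val U = (seqName m Z).val U →
      ∀ i < n, i < m := fun {n m Y Z} h i hi =>
    natName_mem_iff.1 ((isZFC U).app_val (isFunOn_seqName m Z U) (h ▸ app_seqName Y hi U)).1
  have e : n = m := le_antisymm (le_of_forall_lt (key h)) (le_of_forall_lt (key h.symm))
  subst e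
  exact ⟨rfl, fun i hi => (isFunOn_seqName n Z U).2.2 _ _ _ (h ▸ app_seqName Y hi U)
    (app_seqName Z hi U)⟩

omit [OrderTop P] in
theorem exists_app_name (f x : Name P) :
    ∃ y : Name P, ∀ U, (∃ z, App Mod.mem (f.val U) (x.val U) z) →
      App Mod.mem (f.val U) (x.val U) (y.val U) :=
  max_principle fun U z => App Mod.mem (f.val U) (x.val U) z

end inst

variable {K : Type u}

/-- the values of a name -/
def val (F : Name (PP K)) : Val K := fun p α l =>
  Forces p fun U => App Mod.mem (F.val U) ((elt α).val U) ((elt l).val U)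

/-- the nice name with prescribed values -/
noncomputable def nm (φ : Val K) : Name (PP K) :=
  graphName (ι := {x : PP K × K × LL.{u} // φ x.1 x.2.1 x.2.2})
    (fun x => elt x.1.2.1) (fun x => elt x.1.2.2) fun x => x.1.1

/-- being a move -/
abbrev IsMv (U : Gen (PP K)) (g : Mod U) : Prop :=
  IsFun Mod.mem g ((tyName K).val U) ((tyName LL.{u}).val U)

theorem val_mon (F : Name (PP K)) : Mon (val F) := fun _ _ _ _ h h' => Forces.mono h' h

theorem val_good {p : PP K} {F : Name (PP K)} (h : Forces p fun U => IsMv U (F.val U)) :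
    Good p (val F) := by
  refine ⟨val_mon F, fun α q hq => ?_, fun q hq α l l' h1 h2 => ?_⟩
  · obtain ⟨y, hy⟩ := exists_app_name F (elt α)
    have h1 : Forces q fun U => App Mod.mem (F.val U) ((elt α).val U) (y.val U) :=
      (h.mono hq).imp fun U h => hy U (h.2.1 _ (elt_mem_tyName α U))
    have h2 : Forces q fun U => Mod.mem (y.val U) ((tyName LL.{u}).val U) :=
      ((h.mono hq).and h1).imp fun U h => ((isZFC U).app_val h.1 h.2).2
    obtain ⟨r, hr, l, hl⟩ := h2.exists_fam
    exact ⟨r, hr, l, ((h1.mono hr).and hl).imp fun U h => h.2 ▸ h.1⟩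
  · exact Forces.elt_inj (((h.mono hq).and (Forces.and h1 h2)).imp
      fun U h => h.1.2.2 _ _ _ h.2.1 h.2.2)

theorem val_nm {φ : Val K} {p : PP K} {α : K} {l : LL.{u}} (h : φ p α l) : val (nm φ) p α l :=
  forces_app_graph (ι := {x : PP K × K × LL.{u} // φ x.1 x.2.1 x.2.2}) ⟨(p, α, l), h⟩ le_rfl

theorem nm_isMv {φ : Val K} {p : PP K} (h : Good p φ) :
    Forces p fun U => IsMv U ((nm φ).val U) := by
  refine forces_isFunOn_graph (V := fun U y => Mod.mem y ((tyName LL.{u}).val U))
    (fun i q _ _ => ⟨q, le_rfl,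
      Forces.of_forall (fun U => ⟨elt_mem_tyName _ U, elt_mem_tyName _ U⟩) q⟩)
    (fun α q hq _ => ?_) fun i j q hq hi hj e => ⟨q, le_rfl, Forces.of_forall (fun _ => ?_) q⟩
  · obtain ⟨r, hr, l, hl⟩ := h.total α q hq
    exact ⟨r, hr, ⟨(r, α, l), hl⟩, le_rfl, Forces.of_forall (fun _ => rfl) r⟩
  · have h1 := h.mono _ _ _ _ hi i.2
    rw [e.elt_inj] at h1
    rw [h.func q hq _ _ _ h1 (h.mono _ _ _ _ hj j.2)]

theorem nm_agree {φ ψ : Val K} {p : PP K} (hφ : Mon φ) (hψ : Mon ψ) (e : Agree p φ ψ) :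
    Forces p fun U => (nm φ).val U = (nm ψ).val U := by
  have key : ∀ φ ψ : Val K, Mon φ → Agree p φ ψ →
      Forces p fun U => ∀ x, Mod.mem x ((nm φ).val U) → Mod.mem x ((nm ψ).val U) :=
    fun φ ψ hφ e => forces_forall_mem (b := nm φ) fun i q hq hi => ⟨q, le_rfl,
      forces_el_mem (b := nm ψ) ⟨(q, i.1.2), (e q hq _ _).1 (hφ _ _ _ _ hi i.2)⟩ le_rfl⟩
  exact ((key φ ψ hφ e).and (key ψ φ hψ e.symm)).imp fun U h =>
    Mod.ext _ _ fun z => ⟨h.1 z, h.2 z⟩

theorem val_agree {F G : Name (PP K)} {p : PP K} (e : Forces p fun U => F.val U = G.val U) :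
    Agree p (val F) (val G) := fun _ hq _ _ =>
  ⟨fun h => (Forces.and h (e.mono hq)).imp fun _ h => h.2 ▸ h.1,
    fun h => (Forces.and h (e.mono hq)).imp fun _ h => h.2 ▸ h.1⟩

theorem eq_nm_val {F : Name (PP K)} {p : PP K} (h : Forces p fun U => IsMv U (F.val U)) :
    Forces p fun U => (nm (val F)).val U = F.val U := by
  have h1 : Forces p fun U => ∀ x y, App Mod.mem ((nm (val F)).val U) x y →
      App Mod.mem (F.val U) x y :=
    forces_forall_app_graph (Φ := fun U x y => App Mod.mem (F.val U) x y)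
      fun i q _ hi => ⟨q, le_rfl, Forces.mono i.2 hi⟩
  exact ((h.and (nm_isMv (val_good h))).and h1).imp fun U h =>
    (isZFC U).fun_ext h.1.2 h.1.1 fun x _ => h.2 x

/-- the name of a strategy -/
noncomputable def stratName (len : ℕ → ℕ) (G : ℕ → (ℕ → Val K) → Val K) : Name (PP K) :=
  funName (ι := ULift.{u} ℕ × (ℕ → Val K)) (fun x => seqName (len x.1.down) fun i => nm (x.2 i))
    fun x => nm (G x.1.down fun i => val (nm (x.2 i)))

section strat
variable {len : ℕ → ℕ} {G : ℕ → (ℕ → Val K) → Val K} {p : PP K}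
  {T : ∀ U : Gen (PP K), Mod U → Prop} [∀ a : Name (PP K), Clopen fun U => T U (a.val U)]

theorem strat_func (hlen : Function.Injective len) (hmon : ∀ n Φ, Mon (G n Φ))
    (hagree : ∀ n p Φ Φ', (∀ i, Mon (Φ i)) → (∀ i, Mon (Φ' i)) →
      (∀ i < len n, Agree p (Φ i) (Φ' i)) → Agree p (G n Φ) (G n Φ')) (p : PP K) :
    Forces p fun U => ∀ h g g', App Mod.mem ((stratName len G).val U) h g →
      App Mod.mem ((stratName len G).val U) h g' → g = g' := by
  refine forces_graph_functional fun i j q _ _ _ e => ⟨q, le_rfl, ?_⟩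
  obtain ⟨⟨n⟩, Φ⟩ := i
  obtain ⟨⟨m⟩, Ψ⟩ := j
  obtain ⟨U, hU⟩ := e.exists
  obtain rfl : n = m := hlen (seqName_inj hU).1
  exact nm_agree (hmon _ _) (hmon _ _) (hagree n q _ _ (fun _ => val_mon _) (fun _ => val_mon _)
    fun i hi => val_agree (e.imp fun U h => (seqName_inj h).2 i hi))

theorem strat_app (n : ℕ) (F : ℕ → Name (PP K))
    (hF : ∀ i < len n, Forces p fun U => IsMv U ((F i).val U)) :
    Forces p fun U => ∀ h, IsPos Mod.mem h ((natName (len n)).val U) ((tyName K).val U)
      ((tyName LL.{u}).val U) →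
      (∀ i < len n, App Mod.mem h ((natName i).val U) ((F i).val U)) →
      App Mod.mem ((stratName len G).val U) h
        ((nm (G n fun i => val (nm (val (F i))))).val U) := by
  intro U hU h h1 h2
  rw [eq_seqName (Y := fun i => nm (val (F i))) h1 fun i hi => by
    rw [eq_nm_val (hF i hi) U hU]; exact h2 i hi]
  exact app_funName (ι := ULift.{u} ℕ × (ℕ → Val K))
    (fun x => seqName (len x.1.down) fun i => nm (x.2 i))
    (fun x => nm (G x.1.down fun i => val (nm (x.2 i)))) (⟨n⟩, fun i => val (F i)) U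

theorem strat_isStrat (hlen : Function.Injective len) (hmon : ∀ n Φ, Mon (G n Φ))
    (hagree : ∀ n p Φ Φ', (∀ i, Mon (Φ i)) → (∀ i, Mon (Φ' i)) →
      (∀ i < len n, Agree p (Φ i) (Φ' i)) → Agree p (G n Φ) (G n Φ'))
    (hgood : ∀ n, ∀ q ≤ p, ∀ Φ, (∀ i < len n, Good q (Φ i)) → Good q (G n Φ))
    (hT : ∀ m U, T U ((natName m).val U) → ∃ n, m = len n) :
    Forces p fun U => IsStrat Mod.mem ((stratName len G).val U) (omegaName.val U)
      ((tyName K).val U) ((tyName LL.{u}).val U) (T U) := by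
  refine (strat_func hlen hmon hagree p).and ?_
  refine (forces_forall_mem_omega (Φ := (fun (U : Gen (PP K)) (n : Mod U) => ∀ h, T U n →
    IsPos Mod.mem h n ((tyName K).val U) ((tyName LL.{u}).val U) →
    ∃ g, App Mod.mem ((stratName len G).val U) h g ∧ IsMv U g :)) fun m q hq => ⟨q, le_rfl, ?_⟩).imp
    fun U h n x hn => h n hn x
  refine forces_forall fun h => forces_imp fun r hr h1 => ⟨r, le_rfl,
    forces_imp fun s hs h2 => ⟨s, le_rfl, ?_⟩⟩
  obtain ⟨U, hU⟩ := h1.exists
  obtain ⟨n, rfl⟩ := hT m U hU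
  choose F hF using fun i => exists_app_name h (natName i)
  have h3 : ∀ i < len n, Forces s fun U => App Mod.mem (h.val U) ((natName i).val U) ((F i).val U) :=
    fun i hi => h2.imp fun U h => hF i U (h.2.1 _ (natName_mem hi U))
  have h4 : ∀ i < len n, Forces s fun U => IsMv U ((F i).val U) := fun i hi =>
    (h2.and (h3 i hi)).imp fun U h => ((isZFC U).app_val h.1 h.2).2
  have h5 := nm_isMv (hgood n s (hs.trans (hr.trans hq)) (fun i => val (nm (val (F i))))
    fun i hi => val_good (nm_isMv (val_good (h4 i hi))))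
  intro U hU
  exact ⟨_, strat_app n F h4 U hU _ (h2 U hU) fun i hi => h3 i hi U hU, h5 U hU⟩

omit [∀ a : Name (PP K), Clopen fun U => T U (a.val U)] in
theorem strat_follows (hlen : Function.Injective len) (hmon : ∀ n Φ, Mon (G n Φ))
    (hagree : ∀ n p Φ Φ', (∀ i, Mon (Φ i)) → (∀ i, Mon (Φ' i)) →
      (∀ i < len n, Agree p (Φ i) (Φ' i)) → Agree p (G n Φ) (G n Φ'))
    (hT : ∀ n U, T U ((natName (len n)).val U)) {f : Name (PP K)} {F : ℕ → Name (PP K)}
    (hf : Forces p fun U => IsPos Mod.mem (f.val U) (omegaName.val U) ((tyName K).val U)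
      ((tyName LL.{u}).val U))
    (hs : Forces p fun U => Follows Mod.mem (f.val U) ((stratName len G).val U) (omegaName.val U)
      (T U))
    (hF : ∀ i, Forces p fun U => App Mod.mem (f.val U) ((natName i).val U) ((F i).val U)) (n : ℕ) :
    ∀ q ≤ p, ∀ α l, G n (fun i => val (F i)) q α l → val (F (len n)) q α l := by
  have h4 : ∀ i, Forces p fun U => IsMv U ((F i).val U) := fun i =>
    (hf.and (hF i)).imp fun U h => ((isZFC U).app_val h.1 h.2).2
  have h5 : Forces p fun U => (nm (G n fun i => val (nm (val (F i))))).val U =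
      (F (len n)).val U := by
    intro U hU
    obtain ⟨h, hh⟩ : ∃ h, IsRestr Mod.mem h (f.val U) ((natName (len n)).val U) :=
      Mod.sep (fun U z => ∃ x y, IsPair Mod.mem z x y ∧ Mod.mem x ((natName (len n)).val U)) U _
    refine strat_func hlen hmon hagree p U hU h _ _ ?_
      (hs U hU _ h _ (natName_mem_omega _ U) (hT n U) hh (hF _ U hU))
    refine strat_app n F (fun i _ => h4 i) U hU h ((isZFC U).isFunOn_restr hh (hf U hU) ?_)
      fun i hi => ((isZFC U).app_restr hh).2 ⟨hF i U hU, natName_mem hi U⟩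
    intro x hx
    obtain ⟨i, -, rfl⟩ := (mem_natName U x).1 hx
    exact natName_mem_omega i U
  intro q hq α l h
  refine (val_agree h5 q hq α l).1 (val_nm ?_)
  exact (hagree n p _ _ (fun _ => val_mon _) (fun _ => val_mon _)
    (fun i _ => val_agree (eq_nm_val (h4 i))) q hq α l).2 h

end strat

variable (W : Ultrafilter K) [CountableInterFilter (W : Filter K)]

theorem det_holds (hW : ∀ α, {α} ∉ W) (U : Gen (PP K)) :
    Det Mod.mem (omegaName.val U) (evName.val U) ((tyName LL.{u}).val U) ((tyName K).val U) := by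
  refine of_forces_all (Φ := fun U : Gen (PP K) => Det Mod.mem (omegaName.val U) (evName.val U)
    ((tyName LL.{u}).val U) ((tyName K).val U)) (fun p => ⟨p, le_rfl, ?_⟩) U
  refine forces_forall fun A => forces_imp fun q _ _ => ?_
  have hl1 : Function.Injective fun n : ℕ => 2 * n := fun a b h => by simpa using h
  have hl2 : Function.Injective fun n : ℕ => 2 * n + 1 := fun a b h => by simpa using h
  have hm1 : ∀ n Φ, Mon (oneV W n Φ) := fun n Φ q r α l h ⟨q', h1, h2⟩ => ⟨q', h.trans h1, h2⟩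
  have ha1 : ∀ n p Φ Φ', (∀ i, Mon (Φ i)) → (∀ i, Mon (Φ' i)) →
      (∀ i < 2 * n, Agree p (Φ i) (Φ' i)) → Agree p (oneV W n Φ) (oneV W n Φ') :=
    fun n p Φ Φ' => oneV_agree
  by_cases hc : Forces q fun U => ∀ f, IsPos Mod.mem f (omegaName.val U) ((tyName K).val U)
      ((tyName LL.{u}).val U) → Follows Mod.mem f ((stratName (fun n => 2 * n) (oneV W)).val U)
      (omegaName.val U) (fun n => Mod.mem n (evName.val U)) →
      OneWins Mod.mem f (A.val U) (omegaName.val U) ((tyName K).val U)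
  · refine ⟨q, le_rfl, ((strat_isStrat (T := fun U n => Mod.mem n (evName.val U)) hl1 hm1 ha1
      (fun n q _ Φ => oneV_good hW) fun m U h => (natName_mem_ev m U).1 h).and hc).imp
      fun U h => Or.inl ⟨_, h⟩⟩
  obtain ⟨r, hr, hc⟩ := exists_forces_not hc
  obtain ⟨f, hf⟩ := Forces.exists_name (Φ := fun U f => IsPos Mod.mem f (omegaName.val U)
      ((tyName K).val U) ((tyName LL.{u}).val U) ∧
      Follows Mod.mem f ((stratName (fun n => 2 * n) (oneV W)).val U)
      (omegaName.val U) (fun n => Mod.mem n (evName.val U)) ∧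
      ¬ OneWins Mod.mem f (A.val U) (omegaName.val U) ((tyName K).val U))
    (hc.imp fun U h => by simpa only [not_forall, exists_prop] using h)
  have hf1 := hf.imp fun _ h => h.1
  choose F hF using fun i => exists_app_name f (natName i)
  have hF1 : ∀ i, Forces r fun U => App Mod.mem (f.val U) ((natName i).val U) ((F i).val U) :=
    fun i => hf1.imp fun U h => hF i U (h.2.1 _ (natName_mem_omega i U))
  have hF2 : ∀ i, Good r (val (F i)) := fun i =>
    val_good ((hf1.and (hF1 i)).imp fun U h => ((isZFC U).app_val h.1 h.2).2)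
  have hF3 := strat_follows (T := fun U n => Mod.mem n (evName.val U)) hl1 hm1 ha1
    (fun n U => (natName_mem_ev _ U).2 ⟨n, rfl⟩) hf1 (hf.imp fun _ h => h.2.1) hF1
  have hm2 : ∀ n Ψ, Mon (twoV W (fun i => val (F i)) n Ψ) :=
    fun n Φ q r α l h ⟨q', h1, h2⟩ => ⟨q', h.trans h1, h2⟩
  have ha2 : ∀ n p Ψ Ψ', (∀ i, Mon (Ψ i)) → (∀ i, Mon (Ψ' i)) →
      (∀ i < 2 * n + 1, Agree p (Ψ i) (Ψ' i)) →
      Agree p (twoV W (fun i => val (F i)) n Ψ) (twoV W (fun i => val (F i)) n Ψ') :=
    fun n p Φ Φ' => twoV_agree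
  refine ⟨r, hr, (Forces.and (strat_isStrat (T := fun U n => ¬ Mod.mem n (evName.val U)) hl2 hm2 ha2
    (fun n q hq Ψ => twoV_good hW fun i => (hF2 i).le hq) fun m U h => ?_) ?_).imp
      fun U h => Or.inr ⟨_, h⟩⟩
  · obtain ⟨n, rfl | rfl⟩ := Nat.even_or_odd' m
    · exact absurd ((natName_mem_ev _ U).2 ⟨n, rfl⟩) h
    · exact ⟨n, rfl⟩
  refine forces_forall fun g => forces_imp fun s hs hg1 => ⟨s, le_rfl,
    forces_imp fun s' hs' hg2 => ⟨s', le_rfl, forces_not_iff.2 fun s2 hs2 hg3 => ?_⟩⟩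
  obtain ⟨b, hb⟩ := Forces.exists_name hg3
  obtain ⟨s3, hs3, β, hβ⟩ := (hb.imp fun _ h => h.1).exists_fam
  obtain ⟨a', ha'⟩ := Forces.exists_name (hb.imp fun _ h => h.2)
  have e1 : s3 ≤ s := hs3.trans (hs2.trans hs')
  have e2 : s3 ≤ r := e1.trans hs
  replace hg1 := hg1.mono e1
  choose H hH using fun i => exists_app_name g (natName i)
  have hH1 : ∀ i, Forces s3 fun U => App Mod.mem (g.val U) ((natName i).val U) ((H i).val U) :=
    fun i => hg1.imp fun U h => hH i U (h.2.1 _ (natName_mem_omega i U))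
  have hH2 : ∀ i, Forces s3 fun U => IsMv U ((H i).val U) := fun i =>
    (hg1.and (hH1 i)).imp fun U h => ((isZFC U).app_val h.1 h.2).2
  have hH3 := strat_follows (T := fun U n => ¬ Mod.mem n (evName.val U)) hl2 hm2 ha2
    (fun n U h => by
      obtain ⟨m, hm⟩ := (natName_mem_ev _ U).1 h
      omega) hg1 (hg2.mono (hs3.trans hs2)) hH1
  obtain ⟨s4, hs4, α, a, ha⟩ := core hW (fun i => (hF2 i).le e2) (fun i => val_good (hH2 i))
    (fun n q hq => hF3 n q (hq.trans e2)) hH3 β
  have hwin : Forces s4 fun U => ∀ n, Mod.mem n (omegaName.val U) →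
      ∀ g0, App Mod.mem (f.val U) n g0 →
        ∃ y, App Mod.mem g0 ((elt α).val U) y ∧ App Mod.mem (a'.val U) n y := by
    refine forces_forall_mem_omega fun n s5 hs5 => ⟨s5, le_rfl, Forces.mono ?_ hs5⟩
    intro U hU g0 hg0
    have k1 := (hf1.mono (hs4.trans e2) U hU).2.2 _ _ _ hg0 ((hF1 n).mono (hs4.trans e2) U hU)
    obtain ⟨y, k2, k3⟩ := (ha'.mono (hs4.trans hs3) U hU).2 _ _ (natName_mem_omega n U)
      ((hH1 n).mono hs4 U hU)
    rw [hβ.mono hs4 U hU] at k2
    rw [((hH2 n).mono hs4 U hU).2.2 _ _ _ k2 ((ha n).2 U hU)] at k3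
    exact ⟨_, k1 ▸ (ha n).1 U hU, k3⟩
  refine Forces.not_false (p := s4) fun U hU => (hf.mono (hs4.trans e2) U hU).2.2
    ⟨_, elt_mem_tyName α U, _, (ha'.mono (hs4.trans hs3) U hU).1,
      fun n g0 hn => hwin U hU n hn g0⟩

/-- the generic subset of the set of moves attached to a board -/
noncomputable def gset (α : K) : Name (PP K) :=
  .mk {x : PP K × LL.{u} // ((α, x.2, 0), true) ∈ x.1.s} (fun x => elt x.1.2) fun x => x.1.1

theorem gset_ne {α β : K} (h : α ≠ β) (U : Gen (PP K)) : (gset α).val U ≠ (gset β).val U := by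
  refine of_forces_all (Φ := fun U : Gen (PP K) => (gset α).val U ≠ (gset β).val U)
    (fun p => ?_) U
  have hfr := (exists_fresh p).choose_spec
  obtain ⟨q, hq⟩ := Cond.exists_lower (fun i : Fin 3 =>
      ![p, pat α (xi p) ⟨fun _ => true⟩, pat β (xi p) ⟨fun _ => false⟩] i) (by
    have e1 : ∀ γ y, Cond.Compat p (pat γ (xi p) y) := by
      rintro γ y x b b' h ⟨m, h'⟩
      simp only [Prod.mk.injEq] at h'
      obtain ⟨rfl, rfl⟩ := h'
      exact absurd h (hfr γ m b)
    have e2 : Cond.Compat (pat α (xi p) ⟨fun _ => true⟩) (pat β (xi p) ⟨fun _ => false⟩) := by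
      rintro x b b' ⟨m, h1⟩ ⟨m', h2⟩
      simp only [Prod.mk.injEq] at h1 h2
      obtain ⟨rfl, -⟩ := h1
      simp only [Prod.mk.injEq] at h2
      exact absurd h2.1.1.symm h
    intro i j
    fin_cases i <;> fin_cases j
    exacts [p.fn, e1 _ _, e1 _ _, (e1 _ _).symm, (pat _ _ _).fn, e2, (e1 _ _).symm, e2.symm,
      (pat _ _ _).fn])
  refine ⟨q, hq 0, forces_not_iff.2 fun r hr e => ?_⟩
  have h1 : Forces r fun U => Mod.mem ((elt (xi p)).val U) ((gset β).val U) :=
    (e.and (forces_el_mem (b := gset α) ⟨(q, xi p), hq 1 ⟨0, rfl⟩⟩ hr)).imp fun U h => h.1 ▸ h.2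
  obtain ⟨s, hs, ⟨⟨t, l⟩, ht⟩, h2, h3⟩ := h1.exists_el
  obtain rfl : xi p = l := h3.elt_inj
  have := s.fn _ _ _ (h2 ht) ((hs.trans hr) (hq 2 ⟨0, rfl⟩))
  simp at this

theorem isFun_gset (U : Gen (PP K)) :
    IsFun Mod.mem ((funName (fun α : K => elt α) gset).val U) ((tyName K).val U)
      ((powName (tyName LL.{u})).val U) := by
  refine of_forces_all (Φ := fun U : Gen (PP K) => IsFun Mod.mem
    ((funName (fun α : K => elt α) gset).val U) ((tyName K).val U)
      ((powName (tyName LL.{u})).val U)) (fun p => ⟨p, le_rfl, ?_⟩) U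
  refine forces_isFunOn_graph (V := fun U y => Mod.mem y ((powName (tyName LL.{u})).val U))
    (fun i q _ _ => ⟨q, le_rfl, Forces.of_forall (fun U => ⟨elt_mem_tyName _ U, ?_⟩) q⟩)
    (fun j q _ _ => ⟨q, le_rfl, j, le_top, Forces.of_forall (fun _ => rfl) q⟩)
    fun i j q _ _ _ h => ⟨q, le_rfl, Forces.of_forall (fun _ => by rw [h.elt_inj]) q⟩
  rw [mem_powName]
  exact forall_mem (b := gset i) (Φ := fun U y => Mod.mem y ((tyName LL.{u}).val U))
    (fun j q _ => ⟨q, le_rfl, Forces.of_forall (fun U => elt_mem_tyName _ U) q⟩) U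

theorem inj_gset (U : Gen (PP K)) : ∀ x x' y,
    App Mod.mem ((funName (fun α : K => elt α) gset).val U) x y →
    App Mod.mem ((funName (fun α : K => elt α) gset).val U) x' y → x = x' := by
  have := of_forces_all (Φ := (fun U : Gen (PP K) => ∀ x y,
    App Mod.mem ((funName (fun α : K => elt α) gset).val U) x y → ∀ x' y',
    App Mod.mem ((funName (fun α : K => elt α) gset).val U) x' y' → y = y' → x = x' :))
    (fun p => ⟨p, le_rfl, forces_forall_app_graph fun i q _ _ => ⟨q, le_rfl,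
      forces_forall_app_graph fun j r _ _ => ⟨r, le_rfl, Forces.of_forall (fun U h => by
        by_cases e : i = j
        · rw [e]
        · exact absurd h (gset_ne e U)) r⟩⟩⟩) U
  exact fun x x' y h h' => this x y h x' y h' rfl

end Pool.Agent.P.MP_0c777d_lc
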