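import Pool.Agent.P.MP_0c777d_lc.Main

set_option autoImplicit false

open Pool.Agent.Lib.PosetForcing Pool.Agent.P.MP_0c777d_lc

namespace Pool.Agent.P.MP_0c777d_lc.WithdrawnConsistentlyFalse

universe u

theorem result (X : Type u) (W : Ultrafilter X)
    (hcomplete : ∀ S : Set (Set X), S.Countable → (∀ s ∈ S, s ∈ W) → ⋂₀ S ∈ W)
    (hnonprincipal : ∀ x : X, {x} ∉ W) :
    ∃ (M : Type (u + 1)) (mem : M → M → Prop), IsZFC mem ∧
      ∃ w E L K PL j : M,
        IsOmega mem w ∧ IsEvens mem E w ∧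
        (∃ x y, mem x L ∧ mem y L ∧ x ≠ y) ∧ (∃ x, mem x K) ∧
        (∀ x, mem x PL ↔ ∀ y, mem y x → mem y L) ∧
        IsFun mem j K PL ∧ (∀ x x' y, App mem j x y → App mem j x' y → x = x') ∧
        Det mem w E L K := by
  have : CountableInterFilter (W : Filter X) := ⟨hcomplete⟩
  obtain ⟨U, -⟩ := exists_gen (⊤ : PP X)
  obtain ⟨x, -⟩ := Ultrafilter.nonempty_of_mem (Filter.univ_mem : Set.univ ∈ (W : Filter X))
  refine ⟨Mod U, Mod.mem, isZFC U, omegaName.val U, evName.val U, (tyName LL.{u}).val U,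
    (tyName X).val U, (powName (tyName LL.{u})).val U, (funName (fun α : X => elt α) gset).val U,
    isOmega_omega U, isEvens_ev U, ?_, ⟨_, elt_mem_tyName x U⟩, mem_powName _ U, isFun_gset U,
    inj_gset U, det_holds W hnonprincipal U⟩
  refine ⟨_, _, elt_mem_tyName ⟨fun _ => true⟩ U, elt_mem_tyName ⟨fun _ => false⟩ U, fun h => ?_⟩
  simpa using congrFun (congrArg ULift.down (elt_inj h)) 0

end Pool.Agent.P.MP_0c777d_lc.WithdrawnConsistentlyFalse
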